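import Pool.Agent.H71.Pinch.NF

set_option autoImplicit false

open Module
open scoped RealInnerProductSpace

namespace Pool.Agent.H71.Pinch

section

variable {V : Type*} [AddCommGroup V] [Module ℝ V]

/-- Algebraic curvature tensors. -/
structure CurvLike (R : V → V → V → V → ℝ) : Prop where
  add : ∀ a a' b c d, R (a + a') b c d = R a b c d + R a' b c d
  smul : ∀ (t : ℝ) (a b c d : V), R (t • a) b c d = t * R a b c d
  anti : ∀ a b c d, R b a c d = - R a b c d
  pair : ∀ a b c d, R c d a b = R a b c d
  bianchi : ∀ a b c d, R a b c d + R b c a d + R c a b d = 0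

variable {R : V → V → V → V → ℝ}

lemma CurvLike.anti' (h : CurvLike R) (a b c d : V) : R a b d c = - R a b c d := by
  rw [← h.pair, h.anti, h.pair]

lemma CurvLike.add2 (h : CurvLike R) (a b b' c d : V) :
    R a (b + b') c d = R a b c d + R a b' c d := by
  rw [h.anti, h.add, h.anti, h.anti a b']; ring

lemma CurvLike.add3 (h : CurvLike R) (a b c c' d : V) :
    R a b (c + c') d = R a b c d + R a b c' d := by
  rw [← h.pair, h.add, h.pair a b c d, h.pair a b c' d]

lemma CurvLike.add4 (h : CurvLike R) (a b c d d' : V) :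
    R a b c (d + d') = R a b c d + R a b c d' := by
  rw [← h.pair, h.add2, h.pair a b c d, h.pair a b c d']

lemma CurvLike.smul2 (h : CurvLike R) (t : ℝ) (a b c d : V) :
    R a (t • b) c d = t * R a b c d := by
  rw [h.anti, h.smul, h.anti]; ring

lemma CurvLike.smul3 (h : CurvLike R) (t : ℝ) (a b c d : V) :
    R a b (t • c) d = t * R a b c d := by
  rw [← h.pair, h.smul, h.pair]

lemma CurvLike.smul4 (h : CurvLike R) (t : ℝ) (a b c d : V) :
    R a b c (t • d) = t * R a b c d := by
  rw [← h.pair, h.smul2, h.pair]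

lemma CurvLike.neg1 (h : CurvLike R) (a b c d : V) : R (-a) b c d = - R a b c d := by
  rw [← neg_one_smul ℝ a, h.smul]; ring

lemma CurvLike.neg2 (h : CurvLike R) (a b c d : V) : R a (-b) c d = - R a b c d := by
  rw [← neg_one_smul ℝ b, h.smul2]; ring

lemma CurvLike.neg3 (h : CurvLike R) (a b c d : V) : R a b (-c) d = - R a b c d := by
  rw [← neg_one_smul ℝ c, h.smul3]; ring

lemma CurvLike.neg4 (h : CurvLike R) (a b c d : V) : R a b c (-d) = - R a b c d := by
  rw [← neg_one_smul ℝ d, h.smul4]; ring

lemma CurvLike.sub1 (h : CurvLike R) (a a' b c d : V) :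
    R (a - a') b c d = R a b c d - R a' b c d := by
  rw [sub_eq_add_neg, h.add, h.neg1]; ring

lemma CurvLike.sub2 (h : CurvLike R) (a b b' c d : V) :
    R a (b - b') c d = R a b c d - R a b' c d := by
  rw [sub_eq_add_neg, h.add2, h.neg2]; ring

lemma CurvLike.sub3 (h : CurvLike R) (a b c c' d : V) :
    R a b (c - c') d = R a b c d - R a b c' d := by
  rw [sub_eq_add_neg, h.add3, h.neg3]; ring

lemma CurvLike.sub4 (h : CurvLike R) (a b c d d' : V) :
    R a b c (d - d') = R a b c d - R a b c d' := by
  rw [sub_eq_add_neg, h.add4, h.neg4]; ring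

lemma CurvLike.self (h : CurvLike R) (a c d : V) : R a a c d = 0 := by
  have := h.anti a a c d
  linarith

/-- The squared area of the parallelogram spanned by `a` and `b`. -/
def area (B : V → V → ℝ) (a b : V) : ℝ := B a a * B b b - B a b ^ 2

/-- The polarisation identity behind Berger's estimate. -/
lemma CurvLike.polar (h : CurvLike R) (x y z w : V) :
    24 * R x y z w =
      (R (x + w) (y + z) (y + z) (x + w) + R (x - w) (y - z) (y - z) (x - w)
        - R (x + w) (y - z) (y - z) (x + w) - R (x - w) (y + z) (y + z) (x - w))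
      - (R (y + w) (x + z) (x + z) (y + w) + R (y - w) (x - z) (x - z) (y - w)
        - R (y + w) (x - z) (x - z) (y + w) - R (y - w) (x + z) (x + z) (y - w)) := by
  simp only [h.add, h.add2, h.add3, h.add4, h.sub1, h.sub2, h.sub3, h.sub4]
  have e1 : R w y z x = R x z y w := by
    have := h.anti y w z x
    have := h.anti' y w x z
    have := h.pair x z y w
    linarith
  have e2 : R w z y x = R x y z w := by
    have h1 := h.anti z w y x
    have h2 := h.anti' z w x y
    have h3 := h.pair x y z w
    linarith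
  have e3 : R w x z y = R y z x w := by
    have h1 := h.anti x w z y
    have h2 := h.anti' x w y z
    have h3 := h.pair y z x w
    linarith
  have e4 : R w z x y = - R x y z w := by
    have h1 := h.anti z w x y
    have h2 := h.pair x y z w
    linarith
  have e5 : R y x z w = - R x y z w := h.anti x y z w
  have e6 := h.bianchi x y z w
  have e7 : R z x y w = - R x z y w := h.anti x z y w
  linarith

variable {B : V →ₗ[ℝ] V →ₗ[ℝ] ℝ}

/-- Berger's estimate. -/
lemma CurvLike.berger (h : CurvLike R) (hs : ∀ x y, B x y = B y x) {k K : ℝ}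
    (hk : ∀ a b, k * area (fun x y => B x y) a b ≤ R a b b a)
    (hK : ∀ a b, R a b b a ≤ K * area (fun x y => B x y) a b)
    (x y z w : V) (hx : B x x = 1) (hy : B y y = 1) (hz : B z z = 1) (hw : B w w = 1)
    (hxy : B x y = 0) (hxz : B x z = 0) (hxw : B x w = 0) (hyz : B y z = 0) (hyw : B y w = 0)
    (hzw : B z w = 0) : |R x y z w| ≤ 2 / 3 * (K - k) := by
  have hyx := (hs y x).trans hxy
  have hzx := (hs z x).trans hxz
  have hwx := (hs w x).trans hxw
  have hzy := (hs z y).trans hyz
  have hwy := (hs w y).trans hyw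
  have hwz := (hs w z).trans hzw
  have P := h.polar x y z w
  have A : ∀ s t u v : V, B s s = 1 → B t t = 1 → B u u = 1 → B v v = 1 → B s t = 0 → B s u = 0 →
      B s v = 0 → B t u = 0 → B t v = 0 → B u v = 0 →
      area (fun x y => B x y) (s + v) (t + u) = 4 ∧ area (fun x y => B x y) (s - v) (t - u) = 4 ∧
      area (fun x y => B x y) (s + v) (t - u) = 4 ∧
      area (fun x y => B x y) (s - v) (t + u) = 4 := by
    intro s t u v h1 h2 h3 h4 h5 h6 h7 h8 h9 h10
    have h5' := (hs t s).trans h5
    have h6' := (hs u s).trans h6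
    have h7' := (hs v s).trans h7
    have h8' := (hs u t).trans h8
    have h9' := (hs v t).trans h9
    have h10' := (hs v u).trans h10
    refine ⟨?_, ?_, ?_, ?_⟩ <;>
    · simp only [area, map_add, map_sub, LinearMap.add_apply, LinearMap.sub_apply, h1, h2, h3, h4,
        h5, h6, h7, h8, h9, h10, h5', h6', h7', h8', h9', h10']
      norm_num
  obtain ⟨a1, a2, a3, a4⟩ := A x y z w hx hy hz hw hxy hxz hxw hyz hyw hzw
  obtain ⟨b1, b2, b3, b4⟩ := A y x z w hy hx hz hw hyx hyz hyw hxz hxw hzw
  have k1 := hk (x + w) (y + z)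
  have k2 := hk (x - w) (y - z)
  have k3 := hk (x + w) (y - z)
  have k4 := hk (x - w) (y + z)
  have l1 := hk (y + w) (x + z)
  have l2 := hk (y - w) (x - z)
  have l3 := hk (y + w) (x - z)
  have l4 := hk (y - w) (x + z)
  have K1 := hK (x + w) (y + z)
  have K2 := hK (x - w) (y - z)
  have K3 := hK (x + w) (y - z)
  have K4 := hK (x - w) (y + z)
  have L1 := hK (y + w) (x + z)
  have L2 := hK (y - w) (x - z)
  have L3 := hK (y + w) (x - z)
  have L4 := hK (y - w) (x + z)
  rw [a1] at k1 K1
  rw [a2] at k2 K2
  rw [a3] at k3 K3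
  rw [a4] at k4 K4
  rw [b1] at l1 L1
  rw [b2] at l2 L2
  rw [b3] at l3 L3
  rw [b4] at l4 L4
  rw [abs_le]
  constructor <;> linarith

/-- Normal form of a 2-vector for a positive definite symmetric form. -/
theorem exists_normal_form [FiniteDimensional ℝ V] (hs : ∀ x y, B x y = B y x)
    (hp : ∀ x, x ≠ 0 → 0 < B x x) (w : ⋀[ℝ]^2 V) :
    ∃ (ι : Type) (_ : Fintype ι) (_ : DecidableEq ι) (e f : ι → V) (l : ι → ℝ),
      (∀ i j, B (e i) (e j) = if i = j then 1 else 0) ∧
      (∀ i j, B (f i) (f j) = if i = j then 1 else 0) ∧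
      (∀ i j, B (e i) (f j) = 0) ∧ 2 * Fintype.card ι ≤ finrank ℝ V ∧
      w = ∑ i, l i • wedge (e i) (f i) := by
  let core : InnerProductSpace.Core ℝ V :=
    { inner := fun x y => B x y
      conj_inner_symm := fun x y => by simpa using hs y x
      re_inner_nonneg := fun x => by
        rcases eq_or_ne x 0 with rfl | hx
        · simp
        · simpa using (hp x hx).le
      add_left := fun x y z => by simp
      smul_left := fun x y r => by simp
      definite := fun x hx => by
        by_contra h
        exact (hp x h).ne' hx }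
  let _ : NormedAddCommGroup V := core.toNormedAddCommGroup
  let _ : InnerProductSpace ℝ V := InnerProductSpace.ofCore core.toCore
  exact twoVector_normal_form (V := V) w

/-- Positivity of the curvature operator from pinching. -/
theorem CurvLike.pos [FiniteDimensional ℝ V] (h : CurvLike R) (hs : ∀ x y, B x y = B y x)
    (hp : ∀ x, x ≠ 0 → 0 < B x x) {k K : ℝ} {m : ℕ} (hm : finrank ℝ V ≤ 2 * m + 1)
    (hkK : k ≤ K) (hpos : 0 < k - 2 / 3 * (K - k) * ((m : ℝ) - 1))
    (hk : ∀ a b, k * area (fun x y => B x y) a b ≤ R a b b a)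
    (hK : ∀ a b, R a b b a ≤ K * area (fun x y => B x y) a b)
    (Rs : LinearMap.BilinForm ℝ (⋀[ℝ]^2 V))
    (hRs : ∀ x y z w, Rs (wedge x y) (wedge z w) = R x y w z)
    (w : ⋀[ℝ]^2 V) (hw : w ≠ 0) : 0 < Rs w w := by
  obtain ⟨ι, _, _, e, f, l, h1, h2, h3, h4, rfl⟩ := exists_normal_form hs hp w
  have hl : 0 < ∑ i, l i ^ 2 := by
    rcases (Finset.sum_nonneg fun i (_ : i ∈ Finset.univ) => sq_nonneg (l i)).lt_or_eq with h | h
    · exact h
    · exfalso
      apply hw
      rw [eq_comm, Finset.sum_eq_zero_iff_of_nonneg (fun i _ => sq_nonneg (l i))] at h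
      refine Finset.sum_eq_zero fun i hi => ?_
      rw [pow_eq_zero_iff two_ne_zero |>.1 (h i hi), zero_smul]
  have hfe : ∀ i j, B (f i) (e j) = 0 := fun i j => (hs _ _).trans (h3 j i)
  have hexp : Rs (∑ i, l i • wedge (e i) (f i)) (∑ i, l i • wedge (e i) (f i)) =
      ∑ i, ∑ j, l i * l j * R (e i) (f i) (f j) (e j) := by
    simp only [map_sum, map_smul, LinearMap.sum_apply, LinearMap.smul_apply, smul_eq_mul, hRs,
      Finset.mul_sum]
    rw [Finset.sum_comm]
    refine Finset.sum_congr rfl fun i _ => Finset.sum_congr rfl fun j _ => ?_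
    ring
  set c := 2 / 3 * (K - k) with hc
  have hc0 : 0 ≤ c := by rw [hc]; nlinarith
  have hterm : ∀ i j, (if i = j then (k + c) * l i ^ 2 else 0) - c * (|l i| * |l j|) ≤
      l i * l j * R (e i) (f i) (f j) (e j) := by
    intro i j
    by_cases hij : i = j
    · subst hij
      rw [if_pos rfl]
      have h5 := hk (e i) (f i)
      have h6 : area (fun x y => B x y) (e i) (f i) = 1 := by
        simp [area, h1, h2, h3]
      rw [h6] at h5
      have h7 : |l i| * |l i| = l i ^ 2 := by rw [← sq, sq_abs]
      rw [h7]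
      nlinarith [sq_nonneg (l i)]
    · rw [if_neg hij]
      have hji : j ≠ i := fun h => hij h.symm
      have h5 := h.berger hs hk hK (e i) (f i) (f j) (e j) (by simp [h1]) (by simp [h2])
        (by simp [h2]) (by simp [h1]) (h3 _ _) (h3 _ _) (by simp [h1, hij]) (by simp [h2, hij])
        (hfe _ _) (hfe _ _)
      rw [← hc] at h5
      have h6 : |l i * l j * R (e i) (f i) (f j) (e j)| ≤ c * (|l i| * |l j|) := by
        rw [abs_mul, abs_mul]
        nlinarith [mul_nonneg (abs_nonneg (l i)) (abs_nonneg (l j))]
      have := neg_abs_le (l i * l j * R (e i) (f i) (f j) (e j))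
      linarith
  have hsum : ∑ i, ∑ j, ((if i = j then (k + c) * l i ^ 2 else 0) - c * (|l i| * |l j|)) =
      (k + c) * ∑ i, l i ^ 2 - c * (∑ i, |l i|) ^ 2 := by
    simp only [Finset.sum_sub_distrib]
    congr 1
    · simp [Finset.mul_sum]
    · rw [sq, Finset.sum_mul_sum, Finset.mul_sum]
      refine Finset.sum_congr rfl fun i _ => ?_
      rw [Finset.mul_sum]
  have hcs : (∑ i, |l i|) ^ 2 ≤ m * ∑ i, l i ^ 2 := by
    have h5 := sq_sum_le_card_mul_sum_sq (s := (Finset.univ : Finset ι)) (f := fun i => |l i|)
    simp only [sq_abs] at h5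
    refine h5.trans ?_
    apply mul_le_mul_of_nonneg_right _ hl.le
    have : Fintype.card ι ≤ m := by omega
    rw [Finset.card_univ]
    exact_mod_cast this
  have hge : (k + c) * ∑ i, l i ^ 2 - c * (∑ i, |l i|) ^ 2 ≤
      ∑ i, ∑ j, l i * l j * R (e i) (f i) (f j) (e j) := by
    rw [← hsum]
    exact Finset.sum_le_sum fun i _ => Finset.sum_le_sum fun j _ => hterm i j
  rw [hexp]
  refine lt_of_lt_of_le ?_ hge
  have h8 : c * (∑ i, |l i|) ^ 2 ≤ c * (m * ∑ i, l i ^ 2) := mul_le_mul_of_nonneg_left hcs hc0
  have h9 : 0 < (k - c * ((m : ℝ) - 1)) * ∑ i, l i ^ 2 := mul_pos hpos hl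
  nlinarith

end

section Exist

variable {V : Type*} [AddCommGroup V] [Module ℝ V] {R : V → V → V → V → ℝ}

/-- The curvature operator exists. -/
theorem CurvLike.exists_form (h : CurvLike R) :
    ∃ Rs : LinearMap.BilinForm ℝ (⋀[ℝ]^2 V),
      ∀ x y z w, Rs (wedge x y) (wedge z w) = R x y w z := by
  let A : V → V → V [⋀^Fin 2]→ₗ[ℝ] ℝ := fun z w =>
    { toFun := fun v => R (v 0) (v 1) w z
      map_update_add' := by
        intro _ v i x y
        fin_cases i
        · have e : ∀ z : V, Function.update v 0 z 1 = v 1 := by intro z; simp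
          simp [h.add]
        · simp [h.add2]
      map_update_smul' := by
        intro _ v i c x
        fin_cases i
        · simp [h.smul]
        · simp [h.smul2]
      map_eq_zero_of_eq' := by
        intro v i j hv hij
        fin_cases i <;> fin_cases j
        · exact absurd rfl hij
        · simp only at hv ⊢
          have : v 0 = v 1 := hv
          rw [this, h.self]
        · simp only at hv ⊢
          have : v 1 = v 0 := hv
          rw [this, h.self]
        · exact absurd rfl hij }
  have hA : ∀ z w x y, exteriorPower.alternatingMapLinearEquiv (A z w) (wedge x y) =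
      R x y w z := by
    intro z w x y
    rw [wedge, exteriorPower.alternatingMapLinearEquiv_apply_ιMulti]
    rfl
  have hext : ∀ f g : ⋀[ℝ]^2 V →ₗ[ℝ] ℝ, (∀ x y, f (wedge x y) = g (wedge x y)) → f = g := by
    intro f g hfg
    apply exteriorPower.linearMap_ext
    ext v
    have hv : exteriorPower.ιMulti ℝ 2 v = wedge (v 0) (v 1) := by
      unfold wedge
      congr 1
      ext i; fin_cases i <;> simp
    simp only [LinearMap.compAlternatingMap_apply]
    rw [hv]
    exact hfg _ _
  let C : V [⋀^Fin 2]→ₗ[ℝ] (⋀[ℝ]^2 V →ₗ[ℝ] ℝ) :=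
    { toFun := fun v => exteriorPower.alternatingMapLinearEquiv (A (v 0) (v 1))
      map_update_add' := by
        intro _ v i x y
        apply hext
        intro a b
        rw [LinearMap.add_apply, hA, hA, hA]
        fin_cases i
        · simp [h.add4]
        · simp [h.add3]
      map_update_smul' := by
        intro _ v i c x
        apply hext
        intro a b
        rw [LinearMap.smul_apply, hA, hA]
        fin_cases i
        · simp [h.smul4]
        · simp [h.smul3]
      map_eq_zero_of_eq' := by
        intro v i j hv hij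
        apply hext
        intro a b
        rw [LinearMap.zero_apply, hA]
        have : v 0 = v 1 := by
          fin_cases i <;> fin_cases j
          · exact absurd rfl hij
          · exact hv
          · exact hv.symm
          · exact absurd rfl hij
        rw [this, h.pair, h.self] }
  refine ⟨(exteriorPower.alternatingMapLinearEquiv C).flip, fun x y z w => ?_⟩
  rw [LinearMap.flip_apply]
  have h1 : exteriorPower.alternatingMapLinearEquiv C (wedge z w) =
      exteriorPower.alternatingMapLinearEquiv (A z w) := by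
    conv_lhs => rw [wedge, exteriorPower.alternatingMapLinearEquiv_apply_ιMulti]
    rfl
  rw [h1, hA]

end Exist

end Pool.Agent.H71.Pinch
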