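import Pool.Agent.H71.Pinch.Defs
import Pool.Agent.H839R2.Geo.Christoffel

set_option autoImplicit false

open scoped ContDiff Topology
open Module Pool.Agent.H839R2.Geo

namespace Pool.Agent.H71.Pinch

variable {E : Type*} [NormedAddCommGroup E] [NormedSpace ℝ E]

/-- The second derivative `∂_v ∂_w g(a, b)`. -/
noncomputable def D2 (g : E → E →L[ℝ] E →L[ℝ] ℝ) (y v w a b : E) : ℝ :=
  fderiv ℝ (fun y => fderiv ℝ (fun y => g y a b) y w) y v

lemma D2_symm1 {g : E → E →L[ℝ] E →L[ℝ] ℝ} {y : E} (hg : ContDiffAt ℝ 2 g y) (v w a b : E) :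
    D2 g y v w a b = D2 g y w v a b := by
  have h1 : IsSymmSndFDerivAt ℝ (fun y => g y a b) y :=
    (contDiffAt_eval hg a b).isSymmSndFDerivAt (by simp)
  have h3 : ContDiffAt ℝ 1 (fderiv ℝ (fun y => g y a b)) y :=
    (contDiffAt_eval hg a b).fderiv_right (by norm_num)
  have h2 : ∀ w v, fderiv ℝ (fun y => fderiv ℝ (fun y => g y a b) y w) y v =
      fderiv ℝ (fderiv ℝ (fun y => g y a b)) y v w := by
    intro w v
    have h4 := (h3.differentiableAt (by simp)).hasFDerivAt.clm_apply (hasFDerivAt_const w y)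
    have h5 := congrArg (fun L : E →L[ℝ] ℝ => L v) h4.fderiv
    refine h5.trans ?_
    simp
  rw [D2, D2, h2, h2]
  exact h1 v w

lemma D2_symm2 {g : E → E →L[ℝ] E →L[ℝ] ℝ} {y : E}
    (hsymm : ∀ᶠ y' in 𝓝 y, ∀ a b, g y' a b = g y' b a) (v w a b : E) :
    D2 g y v w a b = D2 g y v w b a := by
  have h1 : (fun y => fderiv ℝ (fun y => g y a b) y w) =ᶠ[𝓝 y]
      (fun y => fderiv ℝ (fun y => g y b a) y w) := by
    have h2 : (fun y => g y a b) =ᶠ[𝓝 y] (fun y => g y b a) := by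
      filter_upwards [hsymm] with y' h
      exact h a b
    filter_upwards [h2.fderiv (𝕜 := ℝ)] with y' h
    rw [h]
  rw [D2, D2, h1.fderiv_eq]

lemma christoffel_symm {g : E → E →L[ℝ] E →L[ℝ] ℝ} {y : E} (hg : ContDiffAt ℝ 2 g y)
    (hsymm : ∀ᶠ y' in 𝓝 y, ∀ a b, g y' a b = g y' b a)
    (hpos : ∀ v, v ≠ 0 → 0 < g y v v) {Γ : E → E →L[ℝ] E →L[ℝ] E}
    (hΓ : IsLeviCivitaAt g Γ y) (a b : E) : Γ y a b = Γ y b a := by
  have hgd : DifferentiableAt ℝ g y := hg.differentiableAt (by simp)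
  have hdsym : ∀ v a b, fderiv ℝ g y v a b = fderiv ℝ g y v b a := by
    intro v a b
    rw [← fderiv_eval hgd, ← fderiv_eval hgd]
    have h2 : (fun y => g y a b) =ᶠ[𝓝 y] (fun y => g y b a) := by
      filter_upwards [hsymm] with y' h
      exact h a b
    rw [h2.fderiv_eq]
  by_contra h
  have h1 := hpos (Γ y a b - Γ y b a) (sub_ne_zero.2 h)
  have h2 : g y (Γ y a b - Γ y b a) (Γ y a b - Γ y b a) =
      g y (Γ y a b) (Γ y a b - Γ y b a) - g y (Γ y b a) (Γ y a b - Γ y b a) := by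
    have h3 := map_sub (g y) (Γ y a b) (Γ y b a)
    rw [h3]; rfl
  rw [h2, hΓ.2.self_of_nhds, hΓ.2.self_of_nhds] at h1
  simp only [koszul] at h1
  rw [hdsym (Γ y a b - Γ y b a) a b] at h1
  linarith

/-- The curvature tensor in terms of the second derivatives of the metric and the Christoffel
symbols. -/
lemma riem_formula {g : E → E →L[ℝ] E →L[ℝ] ℝ} {y : E} (hg : ContDiffAt ℝ 2 g y)
    (hsymm : ∀ᶠ y' in 𝓝 y, ∀ a b, g y' a b = g y' b a)
    {Γ : E → E →L[ℝ] E →L[ℝ] E}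
    (hΓ : IsLeviCivitaAt g Γ y) (a b c d : E) :
    riem g Γ y a b c d = (D2 g y a c b d - D2 g y a d b c - D2 g y b c a d + D2 g y b d a c) / 2
      + g y (Γ y a c) (Γ y b d) - g y (Γ y b c) (Γ y a d) := by
  obtain ⟨hd, hk⟩ := hΓ
  have hgd : DifferentiableAt ℝ g y := hg.differentiableAt (by simp)
  have hder : ∀ v a b c : E, fderiv ℝ g y v (Γ y a b) c + g y (fderiv ℝ Γ y v a b) c =
      (D2 g y v a b c + D2 g y v b a c - D2 g y v c a b) / 2 := by
    intro v a b c
    have h1 : HasFDerivAt (fun y => Γ y a b) (((fderiv ℝ Γ y).flip a).flip b) y := by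
      have h2 : HasFDerivAt (fun y => Γ y a) ((fderiv ℝ Γ y).flip a) y := by
        have := hd.hasFDerivAt.clm_apply (hasFDerivAt_const a y)
        simpa using this
      have := h2.clm_apply (hasFDerivAt_const b y)
      simpa using this
    have h3 := hgd.hasFDerivAt.clm_apply h1
    have h4 := h3.clm_apply (hasFDerivAt_const c y)
    have h5 : (fun y => g y (Γ y a b) c) =ᶠ[𝓝 y] fun y => koszul g y a b c := by
      filter_upwards [hk] with y' h
      exact h a b c
    have h6 := h5.fderiv_eq (𝕜 := ℝ)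
    rw [h4.fderiv] at h6
    have h7 := congrArg (fun L : E →L[ℝ] ℝ => L v) h6
    simp only [fderiv_koszul hg (D2 g y) (fun _ _ _ _ => rfl)] at h7
    rw [← h7]
    simp
    ring
  have hdsym : ∀ v a b, fderiv ℝ g y v a b = fderiv ℝ g y v b a := by
    intro v a b
    rw [← fderiv_eval hgd, ← fderiv_eval hgd]
    have h2 : (fun y => g y a b) =ᶠ[𝓝 y] (fun y => g y b a) := by
      filter_upwards [hsymm] with y' h
      exact h a b
    rw [h2.fderiv_eq]
  have hgsym := hsymm.self_of_nhds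
  have h1 : riem g Γ y a b c d = g y (fderiv ℝ Γ y a b c) d -
      g y (fderiv ℝ Γ y b a c) d + g y (Γ y a (Γ y b c)) d -
      g y (Γ y b (Γ y a c)) d := by
    simp only [riem, curvature, LinearMap.coe_mk, AddHom.coe_mk, map_sub, map_add,
      _root_.sub_apply, _root_.add_apply]
  rw [h1]
  have h2 := hder a b c d
  have h3 := hder b a c d
  have hk0 := hk.self_of_nhds
  have h4 := hk0 a (Γ y b c) d
  have h5 := hk0 b (Γ y a c) d
  have h6 := hk0 a d (Γ y b c)
  have h7 := hk0 b d (Γ y a c)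
  have h8 := hgsym (Γ y b c) (Γ y a d)
  have h9 := hgsym (Γ y a c) (Γ y b d)
  simp only [koszul] at h4 h5 h6 h7
  have s1 := D2_symm1 hg b a c d
  have s4 := hdsym a (Γ y b c) d
  have s5 := hdsym b (Γ y a c) d
  have s6 := hdsym d a (Γ y b c)
  have s7 := hdsym d b (Γ y a c)
  have s8 := hdsym (Γ y b c) a d
  have s9 := hdsym (Γ y a c) b d
  linarith

/-- The curvature tensor has the algebraic symmetries. -/
lemma curvLike_riem {g : E → E →L[ℝ] E →L[ℝ] ℝ} {y : E} (hg : ContDiffAt ℝ 2 g y)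
    (hsymm : ∀ᶠ y' in 𝓝 y, ∀ a b, g y' a b = g y' b a)
    (hpos : ∀ v, v ≠ 0 → 0 < g y v v) {Γ : E → E →L[ℝ] E →L[ℝ] E}
    (hΓ : IsLeviCivitaAt g Γ y) : CurvLike (riem g Γ y) := by
  have hs := christoffel_symm hg hsymm hpos hΓ
  have hgs := hsymm.self_of_nhds
  have hF := riem_formula hg hsymm hΓ
  have s1 := D2_symm1 hg
  have s2 := D2_symm2 (g := g) hsymm
  refine ⟨fun a a' b c d => ?_, fun t a b c d => ?_, fun a b c d => ?_, fun a b c d => ?_,
    fun a b c d => ?_⟩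
  · simp only [riem, map_add, _root_.add_apply]
  · simp only [riem, map_smul, _root_.smul_apply, smul_eq_mul]
  · rw [hF, hF]; ring
  · rw [hF, hF, s1 c a d b, s2 a c d b, s1 c b d a, s2 b c d a, s1 d a c b, s2 a d c b,
      s1 d b c a, s2 b d c a, hs c a, hs d b, hs d a, hs c b, hgs (Γ y a d) (Γ y b c)]
    ring
  · rw [hF, hF, hF, s1 b a c d, s1 c a b d, s1 c b a d, s2 b d c a, s2 c d a b, s2 a d c b,
      hs b a, hs c a, hs c b, hgs (Γ y a b) (Γ y c d), hgs (Γ y b c) (Γ y a d),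
      hgs (Γ y a c) (Γ y b d)]
    ring

end Pool.Agent.H71.Pinch
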