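import Pool.Agent.H71.Pinch.Stmt
import Pool.Agent.H71.Pinch.Curv

/-! Comparison of the notions of the statement with those of the proof. -/

set_option autoImplicit false

open scoped Manifold ContDiff Topology
open Module
open Pool.Agent.H839R2.Geo (coordMetric exists_equiv_of_pos exists_christoffel fderiv_eval
  eventually_differentiableAt)

namespace Pool.Agent.H71.Pinch

variable {E : Type} [NormedAddCommGroup E] [NormedSpace ℝ E]

/-- The coefficients of a field of bilinear forms. -/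
noncomputable def coef (g : E → E →L[ℝ] E →L[ℝ] ℝ) (y a b : E) : ℝ := g y a b

/-- The coefficients of a connection. -/
noncomputable def coefC (Γ : E → E →L[ℝ] E →L[ℝ] E) (y a b : E) : E := Γ y a b

lemma koszul_eq {g : E → E →L[ℝ] E →L[ℝ] ℝ} {y : E} (hg : DifferentiableAt ℝ g y) (a b c : E) :
    PinchStmt.koszul (coef g) y a b c = Pool.Agent.H839R2.Geo.koszul g y a b c := by
  unfold PinchStmt.koszul Pool.Agent.H839R2.Geo.koszul coef
  rw [fderiv_eval hg, fderiv_eval hg, fderiv_eval hg]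

lemma coefC_hasFDerivAt {Γ : E → E →L[ℝ] E →L[ℝ] E} {y : E} (hΓ : DifferentiableAt ℝ Γ y)
    (a b : E) : HasFDerivAt (fun z => Γ z a b) (((fderiv ℝ Γ y).flip a).flip b) y := by
  have h2 : HasFDerivAt (fun y => Γ y a) ((fderiv ℝ Γ y).flip a) y := by
    have := hΓ.hasFDerivAt.clm_apply (hasFDerivAt_const a y)
    simpa using this
  have := h2.clm_apply (hasFDerivAt_const b y)
  simpa using this

/-- A Levi-Civita connection in the sense of the proof is one in the sense of the statement. -/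
lemma leviCivita_of {g : E → E →L[ℝ] E →L[ℝ] ℝ} {y : E} (hg : ContDiffAt ℝ 2 g y)
    {Γ : E → E →L[ℝ] E →L[ℝ] E} (hΓ : IsLeviCivitaAt g Γ y) :
    PinchStmt.IsLeviCivitaAt (coef g) (coefC Γ) y := by
  refine ⟨fun a b => (coefC_hasFDerivAt hΓ.1 a b).differentiableAt, ?_⟩
  filter_upwards [hΓ.2, eventually_differentiableAt hg] with z h1 h2 a b c
  rw [koszul_eq h2]
  exact h1 a b c

/-- Two Levi-Civita connections agree near the point. -/
lemma leviCivita_unique [FiniteDimensional ℝ E] {g : E → E →L[ℝ] E →L[ℝ] ℝ} {y : E}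
    (hg : ContDiffAt ℝ 2 g y) (hpos : ∀ v, v ≠ 0 → 0 < g y v v)
    {Γ Γ' : E → E → E → E}
    (h : PinchStmt.IsLeviCivitaAt (coef g) Γ y) (h' : PinchStmt.IsLeviCivitaAt (coef g) Γ' y) :
    ∀ᶠ z in 𝓝 y, ∀ a b, Γ z a b = Γ' z a b := by
  obtain ⟨e, he⟩ := exists_equiv_of_pos (g y) hpos
  have h1 : ∀ᶠ z in 𝓝 y, g z ∈ Set.range
      ((↑) : (E ≃L[ℝ] (E →L[ℝ] ℝ)) → (E →L[ℝ] (E →L[ℝ] ℝ))) := by
    have h2 := ContinuousLinearEquiv.nhds e
    rw [he] at h2
    exact hg.continuousAt h2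
  filter_upwards [h1, h.2, h'.2] with z hz h2 h3 a b
  obtain ⟨e', he'⟩ := hz
  apply e'.injective
  ext c
  have h4 := h2 a b c
  rw [← h3 a b c] at h4
  unfold coef at h4
  rw [← he'] at h4
  exact h4

lemma curv_congr {Γ Γ' : E → E → E → E} {y : E}
    (h : ∀ᶠ z in 𝓝 y, ∀ a b, Γ z a b = Γ' z a b) (a b c : E) :
    PinchStmt.curv Γ y a b c = PinchStmt.curv Γ' y a b c := by
  have h1 : ∀ a b, fderiv ℝ (fun z => Γ z a b) y = fderiv ℝ (fun z => Γ' z a b) y := by
    intro a b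
    apply Filter.EventuallyEq.fderiv_eq
    filter_upwards [h] with z hz
    exact hz a b
  have h2 := h.self_of_nhds
  unfold PinchStmt.curv
  rw [h1, h1, h2 b c, h2 a c, h2, h2]

lemma curv_eq {g : E → E →L[ℝ] E →L[ℝ] ℝ} {Γ : E → E →L[ℝ] E →L[ℝ] E} {y : E}
    (hΓ : DifferentiableAt ℝ Γ y) (a b c d : E) :
    coef g y (PinchStmt.curv (coefC Γ) y a b c) d = riem g Γ y a b c d := by
  unfold coef PinchStmt.curv coefC riem Pool.Agent.H839R2.Geo.curvature
  rw [(coefC_hasFDerivAt hΓ b c).fderiv, (coefC_hasFDerivAt hΓ a c).fderiv]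
  simp only [LinearMap.coe_mk, AddHom.coe_mk, ContinuousLinearMap.flip_apply]
  congr 2
  abel

section

variable [FiniteDimensional ℝ E] {g : E → E →L[ℝ] E →L[ℝ] ℝ} {y : E}
  (hg : ContDiffAt ℝ 2 g y) (hpos : ∀ v, v ≠ 0 → 0 < g y v v)

include hg hpos

/-- The curvature tensor of the statement is that of the proof. -/
lemma exists_old {Γ : E → E → E → E} (h : PinchStmt.IsLeviCivitaAt (coef g) Γ y) :
    ∃ Γ', IsLeviCivitaAt g Γ' y ∧
      ∀ a b c d, coef g y (PinchStmt.curv Γ y a b c) d = riem g Γ' y a b c d := by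
  obtain ⟨Γ', h1, h2⟩ := exists_christoffel hg hpos
  have h3 : IsLeviCivitaAt g Γ' y := ⟨h1, h2⟩
  refine ⟨Γ', h3, fun a b c d => ?_⟩
  rw [curv_congr (leviCivita_unique hg hpos h (leviCivita_of hg h3)), curv_eq h1]

lemma pinchedAt_iff (δ : ℝ) : PinchStmt.PinchedAt (coef g) δ y ↔ PinchedAt g δ y := by
  constructor
  · rintro ⟨Γ, h1, h2, h3⟩
    obtain ⟨Γ', h4, h5⟩ := exists_old hg hpos h1
    have e : ∀ a b, PinchStmt.secCurv (coef g) Γ y a b = secCurv g Γ' y a b := by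
      intro a b
      unfold PinchStmt.secCurv
      rw [h5]
      rfl
    simp only [e] at h2 h3
    exact ⟨Γ', h4, h2, h3⟩
  · rintro ⟨Γ, h1, h2, h3⟩
    have e : ∀ a b, PinchStmt.secCurv (coef g) (coefC Γ) y a b = secCurv g Γ y a b := by
      intro a b
      unfold PinchStmt.secCurv
      rw [curv_eq h1.1]
      rfl
    simp only [← e] at h2 h3
    exact ⟨coefC Γ, leviCivita_of hg h1, h2, h3⟩

lemma positiveAt_iff : PinchStmt.PositiveAt (coef g) y ↔ PositiveAt g y := by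
  constructor
  · rintro ⟨Γ, h1, Rs, h2, h3⟩
    obtain ⟨Γ', h4, h5⟩ := exists_old hg hpos h1
    refine ⟨Γ', h4, Rs, fun a b c d => ?_, h3⟩
    rw [h2 a b c d, h5]
  · rintro ⟨Γ, h1, Rs, h2, h3⟩
    refine ⟨coefC Γ, leviCivita_of hg h1, Rs, fun a b c d => ?_, h3⟩
    rw [h2 a b c d, curv_eq h1.1]

end

end Pool.Agent.H71.Pinch
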