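import Pool.Agent.H71.Pinch.Alg
import Pool.Agent.H234R3.SMP

/-!
Curvature, pinching and the curvature operator of a Riemannian metric in coordinates: the auxiliary
notions of the proof, for metrics and connections whose values are continuous (bi)linear maps. The
notions of the statement are in `Pool.Agent.H71.Pinch.Stmt`.

The Christoffel symbols (`koszul`), the curvature endomorphism (`curvature`) and the expression of
a Riemannian metric in the chart at a point (`coordMetric`) are those of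
`Pool.Agent.H839R2.Geo.Defs`.
-/

set_option autoImplicit false

open scoped Manifold ContDiff Topology
open Module Pool.Agent.H839R2.Geo

namespace Pool.Agent.H71.Pinch

section Coord

variable {E : Type*} [NormedAddCommGroup E] [NormedSpace ℝ E]

/-- `Γ y a b = ∇_a b` is, near the point `y`, the Levi-Civita connection of the metric `g`
(Koszul formula for constant vector fields), and it is differentiable at `y`. -/
def IsLeviCivitaAt (g : E → E →L[ℝ] E →L[ℝ] ℝ) (Γ : E → E →L[ℝ] E →L[ℝ] E) (y : E) : Prop :=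
  DifferentiableAt ℝ Γ y ∧ ∀ᶠ y' in 𝓝 y, ∀ a b c, g y' (Γ y' a b) c = koszul g y' a b c

/-- The curvature tensor `R(a, b, c, d) = g(R(a, b) c, d)` at the point `y`, where
`R(a, b) c = ∇_a ∇_b c - ∇_b ∇_a c` for constant vector fields. -/
noncomputable def riem (g : E → E →L[ℝ] E →L[ℝ] ℝ) (Γ : E → E →L[ℝ] E →L[ℝ] E) (y a b c d : E) :
    ℝ :=
  g y (curvature Γ y b c a) d

/-- The sectional curvature `K(a, b) = g(R(a, b) b, a) / (g(a, a) g(b, b) - g(a, b)²)` of the
plane spanned by `a` and `b`. -/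
noncomputable def secCurv (g : E → E →L[ℝ] E →L[ℝ] ℝ) (Γ : E → E →L[ℝ] E →L[ℝ] E) (y a b : E) :
    ℝ :=
  riem g Γ y a b b a / (g y a a * g y b b - g y a b ^ 2)

/-- The bilinear form `Rs` on 2-vectors is the curvature operator `R^*` of `g` at `y`:
`R^*(x ∧ y, z ∧ w) = R(x, y, w, z)`, so that `R^*(x ∧ y, x ∧ y) = K(x, y) |x ∧ y|²`. -/
def IsCurvatureOperatorAt (g : E → E →L[ℝ] E →L[ℝ] ℝ) (Γ : E → E →L[ℝ] E →L[ℝ] E) (y : E)
    (Rs : LinearMap.BilinForm ℝ (⋀[ℝ]^2 E)) : Prop :=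
  ∀ a b c d : E, Rs (wedge a b) (wedge c d) = riem g Γ y a b d c

/-- `K > 0` at the point `y`, and `K(σ) ≥ δ K(σ')` for all planes `σ`, `σ'` at the point `y`. -/
def PinchedAt (g : E → E →L[ℝ] E →L[ℝ] ℝ) (δ : ℝ) (y : E) : Prop :=
  ∃ Γ, IsLeviCivitaAt g Γ y ∧
    (∀ a b, LinearIndependent ℝ ![a, b] → 0 < secCurv g Γ y a b) ∧
    ∀ a b a' b', LinearIndependent ℝ ![a, b] → LinearIndependent ℝ ![a', b'] →
      δ * secCurv g Γ y a' b' ≤ secCurv g Γ y a b

/-- `R^*(w, w) > 0` for every nonzero 2-vector `w` at the point `y`. -/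
def PositiveAt (g : E → E →L[ℝ] E →L[ℝ] ℝ) (y : E) : Prop :=
  ∃ Γ, IsLeviCivitaAt g Γ y ∧ ∃ Rs, IsCurvatureOperatorAt g Γ y Rs ∧ ∀ w, w ≠ 0 → 0 < Rs w w

end Coord

end Pool.Agent.H71.Pinch
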