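import Pool.Agent.H71.Pinch.Model2
import Pool.Agent.H839R2.Geo.Embed

set_option autoImplicit false

open scoped Manifold ContDiff Topology RealInnerProductSpace
open Module Pool.Agent.H839R2.Geo TopologicalSpace

namespace Pool.Agent.H71.Pinch

section J

variable {E : Type*} [NormedAddCommGroup E] [InnerProductSpace ℝ E]

/-- A partial complex structure. -/
lemma exists_J {m : ℕ} (e f : Fin m → E)
    (he : ∀ i j, ⟪e i, e j⟫ = if i = j then 1 else 0)
    (hf : ∀ i j, ⟪f i, f j⟫ = if i = j then 1 else 0)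
    (hef : ∀ i j, ⟪e i, f j⟫ = 0) :
    ∃ J : E →L[ℝ] E, (∀ x y, ⟪J x, y⟫ = -⟪x, J y⟫) ∧ (∀ x, ‖J x‖ ≤ ‖x‖) ∧
      (∀ i, J (e i) = f i) ∧ (∀ i, J (f i) = - e i) := by
  have hfe : ∀ i j, ⟪f i, e j⟫ = 0 := fun i j => by rw [real_inner_comm]; exact hef j i
  let J : E →L[ℝ] E := ∑ i, ((ip (e i)).smulRight (f i) - (ip (f i)).smulRight (e i))
  have hJx : ∀ x, J x = ∑ i, (⟪e i, x⟫ • f i - ⟪f i, x⟫ • e i) := by
    intro x
    simp only [J, _root_.sum_apply]
    rfl
  have hJi : ∀ x y, ⟪J x, y⟫ = ∑ i, (⟪e i, x⟫ * ⟪f i, y⟫ - ⟪f i, x⟫ * ⟪e i, y⟫) := by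
    intro x y
    rw [hJx, sum_inner]
    refine Finset.sum_congr rfl fun i _ => ?_
    rw [inner_sub_left, inner_smul_left, inner_smul_left]
    rfl
  have hJ : ∀ x y, ⟪J x, y⟫ = -⟪x, J y⟫ := by
    intro x y
    rw [real_inner_comm (J y) x, hJi, hJi, ← Finset.sum_neg_distrib]
    refine Finset.sum_congr rfl fun i _ => ?_
    ring
  have hJe : ∀ i, J (e i) = f i := by
    intro i
    rw [hJx]
    simp [he, hfe]
  have hJf : ∀ i, J (f i) = - e i := by
    intro i
    rw [hJx]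
    simp [hf, hef]
  refine ⟨J, hJ, fun x => ?_, hJe, hJf⟩
  have ho : Orthonormal ℝ (Sum.elim e f) := by
    rw [orthonormal_iff_ite]
    rintro (i | i) (j | j)
    · simp [he]
    · simp [hef]
    · rw [Sum.elim_inr, Sum.elim_inl, hfe]; simp
    · simp [hf]
  have h1 := ho.sum_inner_products_le x (s := Finset.univ)
  rw [Fintype.sum_sum_type] at h1
  simp only [Sum.elim_inl, Sum.elim_inr, Real.norm_eq_abs, sq_abs] at h1
  have h2 : ‖J x‖ ^ 2 = ∑ i, ⟪e i, x⟫ ^ 2 + ∑ i, ⟪f i, x⟫ ^ 2 := by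
    rw [← real_inner_self_eq_norm_sq, hJi, ← Finset.sum_add_distrib]
    refine Finset.sum_congr rfl fun i _ => ?_
    have h3 : ⟪f i, J x⟫ = ⟪e i, x⟫ := by
      have := hJ (f i) x
      rw [hJf, inner_neg_left] at this
      linarith
    have h4 : ⟪e i, J x⟫ = - ⟪f i, x⟫ := by
      have := hJ (e i) x
      rw [hJe] at this
      linarith
    rw [h3, h4]
    ring
  rw [← h2] at h1
  exact le_of_sq_le_sq h1 (norm_nonneg _)

end J

section Open

variable {E : Type} [NormedAddCommGroup E] [InnerProductSpace ℝ E]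

lemma extChartAt_opens (U : Opens E) (x p : U) :
    extChartAt 𝓘(ℝ, E) x p = (p : E) := by
  rfl

lemma opens_symm (U : Opens E) (x : U) {z : E} (hz : z ∈ (extChartAt 𝓘(ℝ, E) x).target) :
    (((extChartAt 𝓘(ℝ, E) x).symm z : U) : E) = z := by
  have := (extChartAt 𝓘(ℝ, E) x).right_inv hz
  rwa [extChartAt_opens] at this

lemma opens_mfderiv_injective (U : Opens E) (p : U) :
    Function.Injective (mfderiv 𝓘(ℝ, E) 𝓘(ℝ, E) (Subtype.val : U → E) p) := by
  have h1 : (Subtype.val : U → E) = extChartAt 𝓘(ℝ, E) p := rfl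
  rw [h1]
  exact (isInvertible_mfderiv_extChartAt (mem_extChartAt_source p)).injective

/-- A smooth positive definite symmetric field of forms on an open set `U` of `E` is a Riemannian
metric on `U`. -/
lemma exists_metric [FiniteDimensional ℝ E] (U : Opens E) (G : E → E →L[ℝ] E →L[ℝ] ℝ) (hG : ContDiff ℝ ∞ G)
    (hsymm : ∀ y v w, G y v w = G y w v) (hpos : ∀ y ∈ U, ∀ v, v ≠ 0 → 0 < G y v v) :
    ∃ g : Bundle.ContMDiffRiemannianMetric 𝓘(ℝ, E) ∞ E (fun x : U => TangentSpace 𝓘(ℝ, E) x),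
      ∀ x : U, G =ᶠ[𝓝 (x : E)] coordMetric 𝓘(ℝ, E) g x := by
  have hι : ContMDiff 𝓘(ℝ, E) 𝓘(ℝ, E) ∞ (Subtype.val : U → E) := contMDiff_subtype_val
  refine ⟨embMetric (Subtype.val : U → E) hι (opens_mfderiv_injective U) G
    (fun p => hG.contDiffAt) (fun p v w => hsymm _ v w) (fun p v hv => hpos _ p.2 v hv), ?_⟩
  intro x
  have h1 : (extChartAt 𝓘(ℝ, E) x).target ∈ 𝓝 (x : E) := by
    have := extChartAt_target_mem_nhds (I := 𝓘(ℝ, E)) x
    rwa [extChartAt_opens] at this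
  have h2 : ∀ᶠ y in 𝓝 (x : E), (extChartAt 𝓘(ℝ, E) x).target ∈ 𝓝 y :=
    eventually_eventually_nhds.2 h1
  filter_upwards [h1, h2] with y hy hy2
  rw [coordMetric_embMetric (Subtype.val : U → E) hι (opens_mfderiv_injective U) G
    (fun p => hG.contDiffAt) (fun p v w => hsymm _ v w) (fun p v hv => hpos _ p.2 v hv) x hy]
  have h3 : (Subtype.val : U → E) ∘ (extChartAt 𝓘(ℝ, E) x).symm =ᶠ[𝓝 y] id := by
    filter_upwards [hy2] with z hz
    exact opens_symm U x hz
  ext a b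
  rw [pull_apply, h3.fderiv_eq, fderiv_id, h3.eq_of_nhds]
  rfl

end Open

/-- The counterexample: an open ball with the model metric. -/
theorem exists_example {d m : ℕ} (hm : 2 ≤ m) (hmd : 2 * m ≤ d) {δ : ℝ} (hδ0 : 0 ≤ δ)
    (hδ : δ * (2 * m + 1) < 2 * ((m : ℝ) - 1)) :
    ∃ (M : Type) (_ : TopologicalSpace M) (_ : T2Space M)
      (_ : SecondCountableTopology M) (_ : ConnectedSpace M)
      (_ : ChartedSpace (EuclideanSpace ℝ (Fin d)) M) (_ : IsManifold (𝓡 d) ∞ M)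
      (g : Bundle.ContMDiffRiemannianMetric (𝓡 d) ∞ (EuclideanSpace ℝ (Fin d))
        (fun x : M => TangentSpace (𝓡 d) x)),
      (∀ x : M, PinchedAt (coordMetric (𝓡 d) g x) δ (extChartAt (𝓡 d) x x)) ∧
      ∃ x : M, ¬ PositiveAt (coordMetric (𝓡 d) g x) (extChartAt (𝓡 d) x x) := by
  let E := EuclideanSpace ℝ (Fin d)
  have hm0 : (2 : ℝ) ≤ m := by exact_mod_cast hm
  let B : OrthonormalBasis (Fin d) ℝ E := EuclideanSpace.basisFun (Fin d) ℝ
  have hB := orthonormal_iff_ite.1 B.orthonormal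
  let e : Fin m → E := fun i => B ⟨2 * i.1, by omega⟩
  let f : Fin m → E := fun i => B ⟨2 * i.1 + 1, by omega⟩
  have he : ∀ i j, ⟪e i, e j⟫ = if i = j then (1 : ℝ) else 0 := by
    intro i j
    refine (hB _ _).trans ?_
    by_cases hij : i = j
    · simp [hij]
    · have : i.1 ≠ j.1 := fun h => hij (Fin.ext h)
      simp [hij, this]
  have hf : ∀ i j, ⟪f i, f j⟫ = if i = j then (1 : ℝ) else 0 := by
    intro i j
    refine (hB _ _).trans ?_
    by_cases hij : i = j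
    · simp [hij]
    · have : i.1 ≠ j.1 := fun h => hij (Fin.ext h)
      simp [hij, this]
  have hef : ∀ i j, ⟪e i, f j⟫ = (0 : ℝ) := by
    intro i j
    refine (hB _ _).trans ?_
    have : 2 * i.1 ≠ 2 * j.1 + 1 := by omega
    simp [this]
  obtain ⟨J, hJ, hJ1, hJe, hJf⟩ := exists_J e f he hf hef
  set b : ℝ := 1 / (2 * m + 1) with hb
  have hden : (0 : ℝ) < 2 * m + 1 := by linarith
  have hbm : b * (2 * m + 1) = 1 := by rw [hb]; field_simp
  have hb0 : 0 ≤ b := by positivity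
  have hb1 : 3 * b < 1 := by nlinarith
  have hb1' : b ≤ 1 := by linarith
  have hδb : δ < 1 - 3 * b := by
    by_contra h
    push Not at h
    have : (1 - 3 * b) * (2 * m + 1) ≤ δ * (2 * m + 1) := mul_le_mul_of_nonneg_right h hden.le
    nlinarith
  obtain ⟨r, hr0, hr1, hr⟩ := mm_pinched hb0 hb1 hJ hJ1 hδ0 hδb
  let U : Opens E := ⟨Metric.ball 0 r, Metric.isOpen_ball⟩
  have hU : ∀ y ∈ U, ‖y‖ < r := by
    intro y hy
    have : y ∈ Metric.ball (0 : E) r := hy
    simpa using this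
  obtain ⟨g, hg⟩ := exists_metric U (mm b J) (mm_smooth b J ∞) (mm_symm b J)
    (fun y hy v hv => mm_pos hb0 y ((hU y hy).le.trans hr1) v hv)
  have hconn : ConnectedSpace U := by
    apply Subtype.connectedSpace
    exact ⟨⟨0, Metric.mem_ball_self hr0⟩, (convex_ball (0 : E) r).isPreconnected⟩
  refine ⟨U, inferInstance, inferInstance, inferInstance, hconn, inferInstance, inferInstance,
    g, fun x => ?_, ?_⟩
  · exact pinchedAt_congr (hg x) (hr _ (hU _ x.2))
  · have h0 : (0 : E) ∈ U := by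
      show (0 : E) ∈ Metric.ball (0 : E) r
      simpa using hr0
    refine ⟨⟨0, h0⟩, fun hpos => ?_⟩
    have h1 : PositiveAt (coordMetric 𝓘(ℝ, E) g ⟨0, h0⟩) (0 : E) := hpos
    have h2 := positiveAt_congr (hg ⟨0, h0⟩).symm h1
    exact mm_not_positive hb0 hb1' hJ hJ1 (by omega) hbm e f he hf hef hJe hJf h2

end Pool.Agent.H71.Pinch
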