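import Pool.Agent.H71.Pinch.Curv

set_option autoImplicit false

open scoped ContDiff Topology RealInnerProductSpace
open Module Pool.Agent.H839R2.Geo

namespace Pool.Agent.H71.Pinch

variable {E : Type*} [NormedAddCommGroup E] [InnerProductSpace ℝ E]

/-- The real inner product as a continuous bilinear map. -/
noncomputable def ip : E →L[ℝ] E →L[ℝ] ℝ := innerSL ℝ

lemma ip_apply (x y : E) : ip x y = ⟪x, y⟫ := rfl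

/-- The model metric `⟨u, v⟩ - R₀(u, y, y, v) / 3`. -/
noncomputable def mm (b : ℝ) (J : E →L[ℝ] E) (y : E) : E →L[ℝ] E →L[ℝ] ℝ :=
  (1 - ‖y‖ ^ 2 / 3) • ip + (1 / 3 : ℝ) • (ip y).smulRight (ip y)
    + b • (ip (J y)).smulRight (ip (J y))

lemma mm_apply (b : ℝ) (J : E →L[ℝ] E) (y u v : E) : mm b J y u v =
    (1 - ‖y‖ ^ 2 / 3) * ⟪u, v⟫ + (1 / 3 : ℝ) * (⟪y, u⟫ * ⟪y, v⟫)
      + b * (⟪J y, u⟫ * ⟪J y, v⟫) := rfl

lemma smul_smooth {F : Type*} [NormedAddCommGroup F] [NormedSpace ℝ F] (n : WithTop ℕ∞)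
    (f : E → ℝ) (hf : ContDiff ℝ n f) (c : F) : ContDiff ℝ n (fun y => f y • c) :=
  hf.smul contDiff_const

lemma mm_smooth (b : ℝ) (J : E →L[ℝ] E) (n : WithTop ℕ∞) : ContDiff ℝ n (mm b J) := by
  have h1 : ContDiff ℝ n (fun y : E => (ip y : E →L[ℝ] ℝ)) := ContinuousLinearMap.contDiff _
  have h2 : ContDiff ℝ n (fun y : E => (ip (J y) : E →L[ℝ] ℝ)) := h1.comp J.contDiff
  have h3 : ContDiff ℝ n (fun y : E => ‖y‖ ^ 2) := contDiff_norm_sq ℝ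
  have h4 : ContDiff ℝ n (fun y : E => ((ip y).smulRight (ip y) : E →L[ℝ] E →L[ℝ] ℝ)) :=
    ContDiff.smulRight h1 h1
  have h5 : ContDiff ℝ n (fun y : E => ((ip (J y)).smulRight (ip (J y)) : E →L[ℝ] E →L[ℝ] ℝ)) :=
    ContDiff.smulRight h2 h2
  have h0 : ContDiff ℝ n (fun y : E => 1 - ‖y‖ ^ 2 / 3) := contDiff_const.sub (h3.div_const 3)
  have h6 : ContDiff ℝ n (fun y : E => ((1 - ‖y‖ ^ 2 / 3) • ip : E →L[ℝ] E →L[ℝ] ℝ)) :=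
    smul_smooth n _ h0 ip
  have h7 : ContDiff ℝ n (fun y : E => ((1 / 3 : ℝ) • (ip y).smulRight (ip y) :
      E →L[ℝ] E →L[ℝ] ℝ)) := h4.const_smul _
  have h8 : ContDiff ℝ n (fun y : E => (b • (ip (J y)).smulRight (ip (J y)) :
      E →L[ℝ] E →L[ℝ] ℝ)) := h5.const_smul _
  exact (h6.add h7).add h8

lemma mm_symm (b : ℝ) (J : E →L[ℝ] E) (y u v : E) : mm b J y u v = mm b J y v u := by
  rw [mm_apply, mm_apply, real_inner_comm u v]; ring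

/-- The quadratic part of the function `y ↦ mm b J y u v`. -/
noncomputable def quad (b : ℝ) (J : E →L[ℝ] E) (u v : E) : E →L[ℝ] E →L[ℝ] ℝ :=
  (-(1 / 3) * ⟪u, v⟫) • ip + (1 / 3 : ℝ) • (ip u).smulRight (ip v)
    + b • ((ip u).comp J).smulRight ((ip v).comp J)

lemma quad_apply (b : ℝ) (J : E →L[ℝ] E) (u v x y : E) : quad b J u v x y =
    (-(1 / 3) * ⟪u, v⟫) * ⟪x, y⟫ + (1 / 3 : ℝ) * (⟪u, x⟫ * ⟪v, y⟫)
      + b * (⟪u, J x⟫ * ⟪v, J y⟫) := rfl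

lemma mm_eq_quad (b : ℝ) (J : E →L[ℝ] E) (u v : E) :
    (fun y => mm b J y u v) = fun y => ⟪u, v⟫ + quad b J u v y y := by
  funext y
  rw [mm_apply, quad_apply, real_inner_self_eq_norm_sq, real_inner_comm u y,
    real_inner_comm v y, real_inner_comm u (J y), real_inner_comm v (J y)]
  ring

lemma fderiv_quad (c : ℝ) (P : E →L[ℝ] E →L[ℝ] ℝ) (y w : E) :
    fderiv ℝ (fun y => c + P y y) y w = P w y + P y w := by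
  have h1 : HasFDerivAt (fun y => c + P y y) (P.flip y + P y) y := by
    have h2 := (P.hasFDerivAt (x := y)).clm_apply (hasFDerivAt_id y)
    have h3 := h2.const_add c
    refine h3.congr_fderiv ?_
    ext z
    simp
    ring
  rw [h1.fderiv]
  rfl

lemma mm_D2 (b : ℝ) (J : E →L[ℝ] E) (y v w p q : E) : D2 (mm b J) y v w p q =
    quad b J p q w v + quad b J p q v w := by
  unfold D2
  rw [mm_eq_quad]
  have h1 : (fun y => fderiv ℝ (fun y => ⟪p, q⟫ + quad b J p q y y) y w) =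
      fun y => ((quad b J p q w) + (quad b J p q).flip w) y := by
    funext y
    rw [fderiv_quad]
    rfl
  rw [h1, ContinuousLinearMap.fderiv]
  rfl

lemma mm_fderiv (b : ℝ) (J : E →L[ℝ] E) (y w p q : E) : fderiv ℝ (mm b J) y w p q =
    quad b J p q w y + quad b J p q y w := by
  rw [← fderiv_eval ((mm_smooth b J 1).differentiable (by simp) y), mm_eq_quad, fderiv_quad]

/-- The model curvature tensor. -/
noncomputable def R0 (b : ℝ) (J : E →L[ℝ] E) (x y z w : E) : ℝ :=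
  ⟪y, z⟫ * ⟪x, w⟫ - ⟪x, z⟫ * ⟪y, w⟫
    - b * (⟪J x, w⟫ * ⟪J y, z⟫ - ⟪J x, z⟫ * ⟪J y, w⟫ - 2 * (⟪J x, y⟫ * ⟪J z, w⟫))

lemma mm_riem {b : ℝ} {J : E →L[ℝ] E} (hJ : ∀ x y, ⟪J x, y⟫ = -⟪x, J y⟫)
    {Γ : E → E →L[ℝ] E →L[ℝ] E} {y : E} (hΓ : IsLeviCivitaAt (mm b J) Γ y) (p q r s : E) :
    riem (mm b J) Γ y p q r s = R0 b J p q r s + mm b J y (Γ y p r) (Γ y q s)
      - mm b J y (Γ y q r) (Γ y p s) := by
  rw [riem_formula (mm_smooth b J 2).contDiffAt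
    (Filter.Eventually.of_forall fun y' => mm_symm b J y') hΓ]
  simp only [mm_D2, quad_apply, R0]
  have hJ' : ∀ x y, ⟪x, J y⟫ = -⟪J x, y⟫ := fun x y => by rw [hJ]; ring
  have hsk : ∀ x y, ⟪J x, y⟫ = -⟪J y, x⟫ := fun x y => by rw [hJ, real_inner_comm]
  simp only [hJ']
  rw [real_inner_comm q p, real_inner_comm r p, real_inner_comm s p, real_inner_comm r q,
    real_inner_comm s q, real_inner_comm s r, hsk q p, hsk r p, hsk s p, hsk r q, hsk s q,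
    hsk s r]
  ring

lemma abs_prod_le (p q r s : E) : |⟪p, q⟫ * ⟪r, s⟫| ≤ ‖p‖ * ‖q‖ * (‖r‖ * ‖s‖) := by
  rw [abs_mul]
  exact mul_le_mul (abs_real_inner_le_norm p q) (abs_real_inner_le_norm r s) (abs_nonneg _)
    (by positivity)

section Est

variable {b : ℝ} {J : E →L[ℝ] E}

lemma quad_bound (hb0 : 0 ≤ b) (hb1 : b ≤ 1) (hJ1 : ∀ x, ‖J x‖ ≤ ‖x‖) (u v x y : E) :
    |quad b J u v x y| ≤ 2 * (‖u‖ * ‖v‖ * (‖x‖ * ‖y‖)) := by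
  rw [quad_apply]
  have h1 := abs_prod_le u v x y
  have h2 := abs_prod_le u x v y
  have h3 := abs_prod_le u (J x) v (J y)
  have h4 : ‖u‖ * ‖J x‖ * (‖v‖ * ‖J y‖) ≤ ‖u‖ * ‖x‖ * (‖v‖ * ‖y‖) := by
    gcongr
    · exact hJ1 x
    · exact hJ1 y
  have h5 : |b * (⟪u, J x⟫ * ⟪v, J y⟫)| ≤ ‖u‖ * ‖v‖ * (‖x‖ * ‖y‖) := by
    rw [abs_mul, abs_of_nonneg hb0]
    have h6 : |⟪u, J x⟫ * ⟪v, J y⟫| ≤ ‖u‖ * ‖v‖ * (‖x‖ * ‖y‖) := by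
      refine (h3.trans h4).trans (le_of_eq ?_)
      ring
    nlinarith [abs_nonneg (⟪u, J x⟫ * ⟪v, J y⟫)]
  have h6 : ‖u‖ * ‖x‖ * (‖v‖ * ‖y‖) = ‖u‖ * ‖v‖ * (‖x‖ * ‖y‖) := by ring
  rw [h6] at h2
  have h7 : 0 ≤ ‖u‖ * ‖v‖ * (‖x‖ * ‖y‖) := by positivity
  rw [abs_le] at h1 h2 h5 ⊢
  constructor <;> nlinarith

lemma mm_eq (y u v : E) : mm b J y u v = ⟪u, v⟫ + quad b J u v y y :=
  congrFun (mm_eq_quad b J u v) y

lemma mm_lower (hb0 : 0 ≤ b) (y v : E) (hy : ‖y‖ ≤ 1) :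
    1 / 2 * ‖v‖ ^ 2 ≤ mm b J y v v := by
  rw [mm_apply, real_inner_self_eq_norm_sq]
  have h1 : ‖y‖ ^ 2 ≤ 1 := by nlinarith [norm_nonneg y]
  have h2 : 0 ≤ ‖v‖ ^ 2 := sq_nonneg _
  have h3 : 0 ≤ ⟪y, v⟫ * ⟪y, v⟫ := mul_self_nonneg _
  have h4 : 0 ≤ b * (⟪J y, v⟫ * ⟪J y, v⟫) := mul_nonneg hb0 (mul_self_nonneg _)
  nlinarith

lemma mm_pos (hb0 : 0 ≤ b) (y : E) (hy : ‖y‖ ≤ 1) (v : E) (hv : v ≠ 0) : 0 < mm b J y v v := by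
  have h1 := mm_lower (J := J) hb0 y v hy
  have h2 : 0 < ‖v‖ := norm_pos_iff.2 hv
  have h3 : 0 < 1 / 2 * ‖v‖ ^ 2 := by positivity
  linarith

lemma mm_bound (hb0 : 0 ≤ b) (hb1 : b ≤ 1) (hJ1 : ∀ x, ‖J x‖ ≤ ‖x‖) (y u v : E)
    (hy : ‖y‖ ≤ 1) : |mm b J y u v| ≤ 3 * (‖u‖ * ‖v‖) := by
  rw [mm_eq]
  have h1 := quad_bound hb0 hb1 hJ1 u v y y
  have h2 := abs_real_inner_le_norm u v
  have h3 : ‖y‖ * ‖y‖ ≤ 1 := by nlinarith [norm_nonneg y]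
  have h4 : ‖u‖ * ‖v‖ * (‖y‖ * ‖y‖) ≤ ‖u‖ * ‖v‖ := by
    have : 0 ≤ ‖u‖ * ‖v‖ := by positivity
    nlinarith
  have h5 := abs_add_le ⟪u, v⟫ (quad b J u v y y)
  linarith

lemma christoffel_bound (hb0 : 0 ≤ b) (hb1 : b ≤ 1) (hJ1 : ∀ x, ‖J x‖ ≤ ‖x‖)
    {Γ : E → E →L[ℝ] E →L[ℝ] E} {y : E} (hΓ : IsLeviCivitaAt (mm b J) Γ y)
    (hy : ‖y‖ ≤ 1) (p q : E) : ‖Γ y p q‖ ≤ 12 * (‖y‖ * (‖p‖ * ‖q‖)) := by
  set v := Γ y p q with hv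
  have h1 := mm_lower (J := J) hb0 y v hy
  have h2 := hΓ.2.self_of_nhds p q v
  rw [← hv] at h2
  have h3 : |koszul (mm b J) y p q v| ≤ 6 * (‖y‖ * (‖p‖ * ‖q‖)) * ‖v‖ := by
    have b1 := quad_bound hb0 hb1 hJ1 q v p y
    have b2 := quad_bound hb0 hb1 hJ1 q v y p
    have b3 := quad_bound hb0 hb1 hJ1 p v q y
    have b4 := quad_bound hb0 hb1 hJ1 p v y q
    have b5 := quad_bound hb0 hb1 hJ1 p q v y
    have b6 := quad_bound hb0 hb1 hJ1 p q y v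
    unfold koszul
    rw [mm_fderiv, mm_fderiv, mm_fderiv]
    rw [abs_le] at b1 b2 b3 b4 b5 b6 ⊢
    constructor <;> nlinarith
  rw [h2] at h1
  have h4 := (abs_le.1 h3).2
  rcases (norm_nonneg v).eq_or_lt with h5 | h5
  · rw [← h5]; positivity
  · have h6 : 1 / 2 * ‖v‖ ^ 2 ≤ 6 * (‖y‖ * (‖p‖ * ‖q‖)) * ‖v‖ := h1.trans h4
    have h7 : ‖v‖ * ‖v‖ ≤ 12 * (‖y‖ * (‖p‖ * ‖q‖)) * ‖v‖ := by nlinarith
    exact le_of_mul_le_mul_right h7 h5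

lemma riem_close (hb0 : 0 ≤ b) (hb1 : b ≤ 1) (hJ : ∀ x y, ⟪J x, y⟫ = -⟪x, J y⟫)
    (hJ1 : ∀ x, ‖J x‖ ≤ ‖x‖) {Γ : E → E →L[ℝ] E →L[ℝ] E} {y : E}
    (hΓ : IsLeviCivitaAt (mm b J) Γ y) (hy : ‖y‖ ≤ 1) (p q : E) (hp : ‖p‖ = 1) (hq : ‖q‖ = 1) :
    |riem (mm b J) Γ y p q q p - R0 b J p q q p| ≤ 864 * ‖y‖ ^ 2 := by
  rw [mm_riem hJ hΓ]
  have g1 := christoffel_bound hb0 hb1 hJ1 hΓ hy p q
  have g2 := christoffel_bound hb0 hb1 hJ1 hΓ hy q p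
  have g3 := christoffel_bound hb0 hb1 hJ1 hΓ hy q q
  have g4 := christoffel_bound hb0 hb1 hJ1 hΓ hy p p
  simp only [hp, hq, mul_one] at g1 g2 g3 g4
  have m1 := mm_bound hb0 hb1 hJ1 y (Γ y p q) (Γ y q p) hy
  have m2 := mm_bound hb0 hb1 hJ1 y (Γ y q q) (Γ y p p) hy
  have k1 : ‖Γ y p q‖ * ‖Γ y q p‖ ≤ 12 * ‖y‖ * (12 * ‖y‖) :=
    mul_le_mul g1 g2 (norm_nonneg _) (by positivity)
  have k2 : ‖Γ y q q‖ * ‖Γ y p p‖ ≤ 12 * ‖y‖ * (12 * ‖y‖) :=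
    mul_le_mul g3 g4 (norm_nonneg _) (by positivity)
  rw [abs_le] at m1 m2 ⊢
  constructor <;> nlinarith

lemma R0_bounds (hb0 : 0 ≤ b) (hJ : ∀ x y, ⟪J x, y⟫ = -⟪x, J y⟫)
    (hJ1 : ∀ x, ‖J x‖ ≤ ‖x‖) (p q : E) (hp : ‖p‖ = 1) (hq : ‖q‖ = 1) (hpq : ⟪p, q⟫ = 0) :
    1 - 3 * b ≤ R0 b J p q q p ∧ R0 b J p q q p ≤ 1 := by
  have hsk : ∀ x y, ⟪J x, y⟫ = -⟪J y, x⟫ := fun x y => by rw [hJ, real_inner_comm]
  have h0 : ∀ x, ⟪J x, x⟫ = 0 := fun x => by have := hsk x x; linarith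
  have h1 : R0 b J p q q p = 1 - 3 * b * ⟪J p, q⟫ ^ 2 := by
    unfold R0
    rw [h0, h0, hsk q p, real_inner_comm p q, hpq, real_inner_self_eq_norm_sq,
      real_inner_self_eq_norm_sq, hp, hq]
    ring
  have h2 : |⟪J p, q⟫| ≤ 1 := by
    have := abs_real_inner_le_norm (J p) q
    rw [hq, mul_one] at this
    exact this.trans ((hJ1 p).trans hp.le)
  have h3 : ⟪J p, q⟫ ^ 2 ≤ 1 := by
    rw [← sq_abs]
    nlinarith [abs_nonneg ⟪J p, q⟫]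
  rw [h1]
  constructor <;> nlinarith [sq_nonneg ⟪J p, q⟫]

lemma area_close (hb0 : 0 ≤ b) (hb1 : b ≤ 1) (hJ1 : ∀ x, ‖J x‖ ≤ ‖x‖) (y p q : E)
    (hy : ‖y‖ ^ 2 ≤ 1 / 100) (hp : ‖p‖ = 1) (hq : ‖q‖ = 1) (hpq : ⟪p, q⟫ = 0) :
    |mm b J y p p * mm b J y q q - mm b J y p q ^ 2 - 1| ≤ 5 * ‖y‖ ^ 2 := by
  have h1 := quad_bound hb0 hb1 hJ1 p p y y
  have h2 := quad_bound hb0 hb1 hJ1 q q y y
  have h3 := quad_bound hb0 hb1 hJ1 p q y y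
  rw [hp] at h1 h3
  rw [hq] at h2 h3
  rw [mm_eq, mm_eq, mm_eq, real_inner_self_eq_norm_sq, real_inner_self_eq_norm_sq, hp, hq, hpq]
  set A := quad b J p p y y
  set B := quad b J q q y y
  set C := quad b J p q y y
  set t := ‖y‖ ^ 2 with ht
  have ht0 : 0 ≤ t := sq_nonneg _
  have e : ‖y‖ * ‖y‖ = t := by rw [ht]; ring
  simp only [e, one_mul, mul_one] at h1 h2 h3
  rw [abs_le] at h1 h2 h3 ⊢
  have hC : C ^ 2 ≤ 4 * t ^ 2 := by nlinarith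
  have hAB : |A * B| ≤ 4 * t ^ 2 := by
    rw [abs_mul]
    have a1 : |A| ≤ 2 * t := abs_le.2 h1
    have a2 : |B| ≤ 2 * t := abs_le.2 h2
    nlinarith [abs_nonneg A, abs_nonneg B]
  rw [abs_le] at hAB
  have ht2 : t ^ 2 ≤ 1 / 100 * t := by nlinarith
  constructor <;> nlinarith [sq_nonneg C]

end Est

end Pool.Agent.H71.Pinch
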