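import Pool.Agent.H71.Pinch.Model

set_option autoImplicit false

open scoped ContDiff Topology RealInnerProductSpace
open Module Pool.Agent.H839R2.Geo

namespace Pool.Agent.H71.Pinch

section Germ

variable {E : Type*} [NormedAddCommGroup E] [NormedSpace ℝ E]

lemma isLeviCivitaAt_congr {g g' : E → E →L[ℝ] E →L[ℝ] ℝ} {y : E} (h : g =ᶠ[𝓝 y] g')
    {Γ : E → E →L[ℝ] E →L[ℝ] E} (hΓ : IsLeviCivitaAt g Γ y) : IsLeviCivitaAt g' Γ y := by
  refine ⟨hΓ.1, ?_⟩
  have h1 : ∀ᶠ y' in 𝓝 y, g =ᶠ[𝓝 y'] g' := h.eventually_nhds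
  filter_upwards [hΓ.2, h1] with y' h2 h3 a b c
  have h4 : fderiv ℝ g y' = fderiv ℝ g' y' := h3.fderiv_eq
  have h5 := h2 a b c
  rw [h3.eq_of_nhds] at h5
  rw [h5, koszul, koszul, h4]

lemma pinchedAt_congr {g g' : E → E →L[ℝ] E →L[ℝ] ℝ} {y : E} (h : g =ᶠ[𝓝 y] g') {δ : ℝ}
    (hg : PinchedAt g δ y) : PinchedAt g' δ y := by
  obtain ⟨Γ, h1, h2, h3⟩ := hg
  have e : ∀ a b, secCurv g' Γ y a b = secCurv g Γ y a b := by
    intro a b
    simp only [secCurv, riem, h.eq_of_nhds]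
  refine ⟨Γ, isLeviCivitaAt_congr h h1, fun a b hab => ?_, fun a b a' b' hab hab' => ?_⟩
  · rw [e]; exact h2 a b hab
  · rw [e, e]; exact h3 a b a' b' hab hab'

lemma positiveAt_congr {g g' : E → E →L[ℝ] E →L[ℝ] ℝ} {y : E} (h : g =ᶠ[𝓝 y] g')
    (hg : PositiveAt g y) : PositiveAt g' y := by
  obtain ⟨Γ, h1, Rs, h2, h3⟩ := hg
  refine ⟨Γ, isLeviCivitaAt_congr h h1, Rs, fun a b c d => ?_, h3⟩
  rw [h2, riem, riem, h.eq_of_nhds]

end Germ

variable {E : Type*} [NormedAddCommGroup E] [InnerProductSpace ℝ E]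

lemma exists_orthonormal_pair {a b : E} (hab : LinearIndependent ℝ ![a, b]) :
    ∃ (p q : E) (s t u : ℝ), ‖p‖ = 1 ∧ ‖q‖ = 1 ∧ ⟪p, q⟫ = 0 ∧ s ≠ 0 ∧ u ≠ 0 ∧ a = s • p ∧
      b = t • p + u • q := by
  have ha : a ≠ 0 := by
    have := hab.ne_zero 0
    simpa using this
  have hna : ‖a‖ ≠ 0 := norm_ne_zero_iff.2 ha
  set p := ‖a‖⁻¹ • a with hp
  have hp1 : ‖p‖ = 1 := by
    rw [hp, norm_smul, norm_inv, norm_norm, inv_mul_cancel₀ hna]
  set c := b - ⟪p, b⟫ • p with hc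
  have hc0 : c ≠ 0 := by
    intro h
    have h1 : b = (⟪p, b⟫ * ‖a‖⁻¹) • a := by
      rw [hc, sub_eq_zero] at h
      rw [← smul_smul, ← hp]
      exact h
    have h2 := LinearIndependent.pair_iff.1 hab (⟪p, b⟫ * ‖a‖⁻¹) (-1) (by
      rw [← h1]; simp)
    norm_num at h2
  have hnc : ‖c‖ ≠ 0 := norm_ne_zero_iff.2 hc0
  refine ⟨p, ‖c‖⁻¹ • c, ‖a‖, ⟪p, b⟫, ‖c‖, hp1, ?_, ?_, hna, hnc, ?_, ?_⟩
  · rw [norm_smul, norm_inv, norm_norm, inv_mul_cancel₀ hnc]
  · rw [inner_smul_right, hc, inner_sub_right, inner_smul_right, real_inner_self_eq_norm_sq, hp1]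
    ring
  · rw [hp, smul_smul, mul_inv_cancel₀ hna, one_smul]
  · have h1 : ‖c‖ • (‖c‖⁻¹ • c) = c := by rw [smul_smul, mul_inv_cancel₀ hnc, one_smul]
    rw [h1, hc]
    abel

lemma secCurv_reduce {g : E → E →L[ℝ] E →L[ℝ] ℝ} {Γ : E → E →L[ℝ] E →L[ℝ] E} {y : E}
    (hR : CurvLike (riem g Γ y)) (hs : ∀ a b, g y a b = g y b a) (p q : E) (s t u : ℝ)
    (hs0 : s ≠ 0) (hu0 : u ≠ 0) :
    secCurv g Γ y (s • p) (t • p + u • q) = secCurv g Γ y p q := by
  have h1 : riem g Γ y (s • p) (t • p + u • q) (t • p + u • q) (s • p) =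
      (s ^ 2 * u ^ 2) * riem g Γ y p q q p := by
    have h2 : riem g Γ y p p q p = 0 := hR.self _ _ _
    have h3 : riem g Γ y p q p p = 0 := by rw [hR.pair]; exact hR.self _ _ _
    have h4 : riem g Γ y p p p p = 0 := hR.self _ _ _
    simp only [hR.add2, hR.add3, hR.smul, hR.smul2, hR.smul3, hR.smul4, h2, h3, h4]
    ring
  have h5 : g y (s • p) (s • p) * g y (t • p + u • q) (t • p + u • q) -
      g y (s • p) (t • p + u • q) ^ 2 = (s ^ 2 * u ^ 2) * (g y p p * g y q q - g y p q ^ 2) := by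
    simp only [map_add, map_smul, _root_.add_apply, _root_.smul_apply, smul_eq_mul, hs q p]
    ring
  rw [secCurv, secCurv, h1, h5]
  apply mul_div_mul_left
  positivity

/-- Near the origin the model metric is almost as pinched as at the origin. -/
theorem mm_pinched [FiniteDimensional ℝ E] {b : ℝ} {J : E →L[ℝ] E} (hb0 : 0 ≤ b)
    (hb1 : 3 * b < 1) (hJ : ∀ x y, ⟪J x, y⟫ = -⟪x, J y⟫) (hJ1 : ∀ x, ‖J x‖ ≤ ‖x‖) {δ : ℝ}
    (hδ0 : 0 ≤ δ) (hδ : δ < 1 - 3 * b) :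
    ∃ r > 0, r ≤ 1 ∧ ∀ y, ‖y‖ < r → PinchedAt (mm b J) δ y := by
  have hb1' : b ≤ 1 := by linarith
  let φ : ℝ → ℝ := fun ε => (1 - 3 * b - 864 * ε) / (1 + 5 * ε) - δ * ((1 + 864 * ε) / (1 - 5 * ε))
  have hφ : ContinuousAt φ 0 := by
    have h1 : (1 + 5 * (0 : ℝ)) ≠ 0 := by norm_num
    have h2 : (1 - 5 * (0 : ℝ)) ≠ 0 := by norm_num
    exact ((by fun_prop : ContinuousAt (fun ε : ℝ => 1 - 3 * b - 864 * ε) 0).div
      (by fun_prop) h1).sub (continuousAt_const.mul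
        ((by fun_prop : ContinuousAt (fun ε : ℝ => 1 + 864 * ε) 0).div (by fun_prop) h2))
  have hφ0 : 0 < φ 0 := by
    simp only [φ]
    norm_num
    linarith
  have h1 : ∀ᶠ ε in 𝓝 (0 : ℝ), 0 < φ ε := hφ.eventually (lt_mem_nhds hφ0)
  obtain ⟨ε0, hε0, h2⟩ := Metric.eventually_nhds_iff.1 h1
  let c := min ε0 (min (1 / 100) ((1 - 3 * b) / 1000))
  have hc0 : 0 < c := by
    refine lt_min hε0 (lt_min (by norm_num) ?_)
    apply div_pos (by linarith) (by norm_num)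
  have hc1 : c ≤ ε0 := min_le_left _ _
  have hc2 : c ≤ 1 / 100 := (min_le_right _ _).trans (min_le_left _ _)
  have hc3 : c ≤ (1 - 3 * b) / 1000 := (min_le_right _ _).trans (min_le_right _ _)
  refine ⟨c, hc0, hc2.trans (by norm_num), fun y hy => ?_⟩
  have hy1 : ‖y‖ ≤ 1 := by linarith [norm_nonneg y]
  set t := ‖y‖ ^ 2 with ht
  have ht0 : 0 ≤ t := sq_nonneg _
  have htc : t < c := by
    rw [ht]
    nlinarith [norm_nonneg y]
  have hpos : ∀ v, v ≠ 0 → 0 < mm b J y v v := fun v hv => mm_pos hb0 y hy1 v hv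
  have hsm : ContDiffAt ℝ 2 (mm b J) y := (mm_smooth b J 2).contDiffAt
  have hsy : ∀ᶠ y' in 𝓝 y, ∀ u v, mm b J y' u v = mm b J y' v u :=
    Filter.Eventually.of_forall fun y' => mm_symm b J y'
  obtain ⟨Γ, hΓ1, hΓ2⟩ := exists_christoffel hsm hpos
  have hΓ : IsLeviCivitaAt (mm b J) Γ y := ⟨hΓ1, hΓ2⟩
  have hR := curvLike_riem hsm hsy hpos hΓ
  have key : ∀ p q, LinearIndependent ℝ ![p, q] →
      (1 - 3 * b - 864 * t) / (1 + 5 * t) ≤ secCurv (mm b J) Γ y p q ∧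
      secCurv (mm b J) Γ y p q ≤ (1 + 864 * t) / (1 - 5 * t) := by
    intro a c' hac
    obtain ⟨p, q, s, t', u, hp, hq, hpq, hs0, hu0, rfl, rfl⟩ := exists_orthonormal_pair hac
    rw [secCurv_reduce hR (mm_symm b J y) p q s t' u hs0 hu0]
    have h3 := riem_close hb0 hb1' hJ hJ1 hΓ hy1 p q hp hq
    have h4 := R0_bounds hb0 hJ hJ1 p q hp hq hpq
    have h5 := area_close hb0 hb1' hJ1 y p q (by rw [← ht]; linarith) hp hq hpq
    rw [← ht] at h3 h5
    rw [abs_le] at h3 h5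
    rw [secCurv]
    set A := mm b J y p p * mm b J y q q - mm b J y p q ^ 2
    set S := riem (mm b J) Γ y p q q p
    have hA : 0 < A := by linarith
    have hlo : 0 ≤ 1 - 3 * b - 864 * t := by linarith
    constructor
    · exact div_le_div₀ (by linarith) (by linarith) hA (by linarith)
    · exact div_le_div₀ (by linarith) (by linarith) (by linarith) (by linarith)
  have hφt : 0 < φ t := by
    apply h2
    rw [Real.dist_eq, sub_zero, abs_of_nonneg ht0]
    linarith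
  refine ⟨Γ, hΓ, fun a a' haa => ?_, fun a a' c1 c2 haa hcc => ?_⟩
  · refine lt_of_lt_of_le ?_ (key a a' haa).1
    apply div_pos <;> linarith
  · have h6 := (key a a' haa).1
    have h7 := (key c1 c2 hcc).2
    have h8 := mul_le_mul_of_nonneg_left h7 hδ0
    have h9 : δ * ((1 + 864 * t) / (1 - 5 * t)) < (1 - 3 * b - 864 * t) / (1 + 5 * t) := by
      simp only [φ] at hφt
      linarith
    linarith

/-- At the origin the curvature tensor of the model metric is `R0`. -/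
lemma mm_riem_zero {b : ℝ} {J : E →L[ℝ] E} (hb0 : 0 ≤ b) (hb1 : b ≤ 1)
    (hJ : ∀ x y, ⟪J x, y⟫ = -⟪x, J y⟫) (hJ1 : ∀ x, ‖J x‖ ≤ ‖x‖)
    {Γ : E → E →L[ℝ] E →L[ℝ] E} (hΓ : IsLeviCivitaAt (mm b J) Γ 0) (p q r s : E) :
    riem (mm b J) Γ 0 p q r s = R0 b J p q r s := by
  have h0 : ∀ p q, Γ 0 p q = 0 := by
    intro p q
    have := christoffel_bound hb0 hb1 hJ1 hΓ (by simp) p q
    rw [norm_zero, zero_mul, mul_zero] at this
    exact norm_le_zero_iff.1 this
  rw [mm_riem hJ hΓ]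
  simp [h0]

/-- The model metric does not have positive curvature operator at the origin. -/
theorem mm_not_positive [FiniteDimensional ℝ E] {b : ℝ} {J : E →L[ℝ] E} (hb0 : 0 ≤ b)
    (hb1 : b ≤ 1) (hJ : ∀ x y, ⟪J x, y⟫ = -⟪x, J y⟫) (hJ1 : ∀ x, ‖J x‖ ≤ ‖x‖)
    {m : ℕ} (hm : 0 < m) (hbm : b * (2 * m + 1) = 1) (e f : Fin m → E)
    (he : ∀ i j, ⟪e i, e j⟫ = if i = j then 1 else 0)
    (hf : ∀ i j, ⟪f i, f j⟫ = if i = j then 1 else 0)
    (hef : ∀ i j, ⟪e i, f j⟫ = 0) (hJe : ∀ i, J (e i) = f i) (hJf : ∀ i, J (f i) = - e i) :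
    ¬ PositiveAt (mm b J) 0 := by
  rintro ⟨Γ, hΓ, Rs, hRs, hpos⟩
  have hfe : ∀ i j, ⟪f i, e j⟫ = 0 := fun i j => by rw [real_inner_comm]; exact hef j i
  have hcard : ∑ i : Fin m, ∑ j : Fin m, (if i = j then (1 : ℝ) else 0) = m := by
    simp
  -- the form of the unit sphere
  have hS : CurvLike (fun x y z w : E => ⟪y, z⟫ * ⟪x, w⟫ - ⟪x, z⟫ * ⟪y, w⟫) := by
    refine ⟨?_, ?_, ?_, ?_, ?_⟩
    · intro a a' b c d
      simp only [inner_add_left]; ring
    · intro t a b c d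
      simp only [inner_smul_left, conj_trivial]; ring
    · intro a b c d
      ring
    · intro a b c d
      simp only [real_inner_comm a c, real_inner_comm a d, real_inner_comm b c,
        real_inner_comm b d]
      ring
    · intro a b c d
      simp only [real_inner_comm b a, real_inner_comm c a, real_inner_comm c b]
      ring
  obtain ⟨S, hSS⟩ := hS.exists_form
  set w : ⋀[ℝ]^2 E := ∑ i, wedge (e i) (f i) with hw
  have hw0 : w ≠ 0 := by
    intro h
    have h1 : S w w = m := by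
      rw [hw]
      simp only [map_sum, LinearMap.sum_apply, hSS]
      rw [← hcard]
      refine Finset.sum_congr rfl fun i _ => Finset.sum_congr rfl fun j _ => ?_
      rw [hf, he, hfe, hef]
      by_cases hij : j = i
      · subst hij; simp
      · have hji : i ≠ j := fun h => hij h.symm
        simp [hij, hji]
    rw [h] at h1
    simp only [map_zero] at h1
    have : (0 : ℝ) < m := by exact_mod_cast hm
    linarith
  have h2 := hpos w hw0
  have h3 : Rs w w = m - b * (m + 2 * (m * m)) := by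
    rw [hw]
    simp only [map_sum, LinearMap.sum_apply, hRs _ _ _ _, mm_riem_zero hb0 hb1 hJ hJ1 hΓ]
    have h4 : ∀ i j : Fin m, R0 b J (e i) (f i) (f j) (e j) =
        (if i = j then (1 : ℝ) else 0) - b * ((if i = j then (1 : ℝ) else 0) + 2) := by
      intro i j
      unfold R0
      simp only [hJe, hJf, inner_neg_left, he, hf, hef, hfe]
      by_cases hij : i = j
      · subst hij; simp
      · simp [hij]
    rw [Finset.sum_comm]
    simp only [h4]
    simp only [Finset.sum_sub_distrib, ← Finset.mul_sum, Finset.sum_add_distrib, hcard]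
    simp only [Finset.sum_const, Finset.card_univ, Fintype.card_fin, nsmul_eq_mul]
    ring
  have h5 : (m : ℝ) - b * (m + 2 * (m * m)) = m * (1 - b * (2 * m + 1)) := by ring
  rw [h3, h5, hbm] at h2
  simp at h2

end Pool.Agent.H71.Pinch
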