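import Mathlib

set_option autoImplicit false

open Module
open scoped RealInnerProductSpace

namespace Pool.Agent.H71.Pinch

section Wedge

variable {V : Type*} [AddCommGroup V] [Module ℝ V]

/-- The 2-vector `x ∧ y`. -/
noncomputable def wedge (x y : V) : ⋀[ℝ]^2 V := exteriorPower.ιMulti ℝ 2 ![x, y]

lemma wedge_add_left (x x' y : V) : wedge (x + x') y = wedge x y + wedge x' y := by
  have h := (exteriorPower.ιMulti ℝ 2 (M := V)).map_update_add ![x, y] 0 x x'
  have e : ∀ z : V, Function.update ![x, y] 0 z = ![z, y] := by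
    intro z; ext i; fin_cases i <;> simp
  rw [e, e, e] at h
  exact h

lemma wedge_add_right (x y y' : V) : wedge x (y + y') = wedge x y + wedge x y' := by
  have h := (exteriorPower.ιMulti ℝ 2 (M := V)).map_update_add ![x, y] 1 y y'
  have e : ∀ z : V, Function.update ![x, y] 1 z = ![x, z] := by
    intro z; ext i; fin_cases i <;> simp
  rw [e, e, e] at h
  exact h

lemma wedge_smul_left (c : ℝ) (x y : V) : wedge (c • x) y = c • wedge x y := by
  have h := (exteriorPower.ιMulti ℝ 2 (M := V)).map_update_smul ![x, y] 0 c x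
  have e : ∀ z : V, Function.update ![x, y] 0 z = ![z, y] := by
    intro z; ext i; fin_cases i <;> simp
  rw [e, e] at h
  exact h

lemma wedge_smul_right (c : ℝ) (x y : V) : wedge x (c • y) = c • wedge x y := by
  have h := (exteriorPower.ιMulti ℝ 2 (M := V)).map_update_smul ![x, y] 1 c y
  have e : ∀ z : V, Function.update ![x, y] 1 z = ![x, z] := by
    intro z; ext i; fin_cases i <;> simp
  rw [e, e] at h
  exact h

lemma wedge_self (x : V) : wedge x x = 0 := by
  have h := (exteriorPower.ιMulti ℝ 2 (M := V)).map_eq_zero_of_eq ![x, x] (i := 0) (j := 1)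
    (by simp) (by simp)
  exact h

lemma wedge_swap (x y : V) : wedge y x = - wedge x y := by
  have h := wedge_self (x + y)
  rw [wedge_add_left, wedge_add_right, wedge_add_right, wedge_self, wedge_self] at h
  rw [zero_add, add_zero] at h
  exact eq_neg_of_add_eq_zero_right h

/-- The 2-vector `x ∧ y` as a bilinear map. -/
noncomputable def wedgeL : V →ₗ[ℝ] V →ₗ[ℝ] ⋀[ℝ]^2 V :=
  LinearMap.mk₂ ℝ wedge wedge_add_left (fun c x y => wedge_smul_left c x y) wedge_add_right
    (fun c x y => wedge_smul_right c x y)

lemma wedgeL_apply (x y : V) : wedgeL x y = wedge x y := rfl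

end Wedge

section NF

variable {V : Type*} [NormedAddCommGroup V] [InnerProductSpace ℝ V] [FiniteDimensional ℝ V]

/-- Normal form of a skew-adjoint operator. -/
theorem skew_normal_form : ∀ (n : ℕ) (T : V →ₗ[ℝ] V) (_ : ∀ x y, ⟪T x, y⟫ = -⟪x, T y⟫)
    (_ : finrank ℝ (LinearMap.range T) ≤ n),
    ∃ (ι : Type) (_ : Fintype ι) (_ : DecidableEq ι) (e f : ι → V) (l : ι → ℝ),
      (∀ i j, ⟪e i, e j⟫ = if i = j then 1 else 0) ∧
      (∀ i j, ⟪f i, f j⟫ = if i = j then 1 else 0) ∧
      (∀ i j, ⟪e i, f j⟫ = 0) ∧
      (∀ i, e i ∈ LinearMap.range T) ∧ (∀ i, f i ∈ LinearMap.range T) ∧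
      ∀ x, T x = ∑ i, l i • (⟪e i, x⟫ • f i - ⟪f i, x⟫ • e i) := by
  intro n
  induction n with
  | zero =>
    intro T hT hn
    have h0 : LinearMap.range T = ⊥ := Submodule.finrank_eq_zero.1 (Nat.le_zero.1 hn)
    refine ⟨Empty, inferInstance, inferInstance, Empty.elim, Empty.elim, Empty.elim, ?_⟩
    refine ⟨fun i => i.elim, fun i => i.elim, fun i => i.elim, fun i => i.elim,
      fun i => i.elim, fun x => ?_⟩
    have : T = 0 := LinearMap.range_eq_bot.1 h0
    simp [this]
  | succ n ih =>
    intro T hT hn
    by_cases hT0 : T = 0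
    · refine ⟨Empty, inferInstance, inferInstance, Empty.elim, Empty.elim, Empty.elim, ?_⟩
      refine ⟨fun i => i.elim, fun i => i.elim, fun i => i.elim, fun i => i.elim,
        fun i => i.elim, fun x => ?_⟩
      simp [hT0]
    have hS : (T ∘ₗ T).IsSymmetric := by
      intro x y
      simp only [LinearMap.comp_apply]
      rw [hT, hT]
      ring
    have hex : ∃ (e : V) (μ : ℝ), ‖e‖ = 1 ∧ μ ≠ 0 ∧ T (T e) = μ • e := by
      by_contra hcon
      push Not at hcon
      apply hT0
      have hz : (T ∘ₗ T) = 0 := by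
        apply (hS.eigenvectorBasis rfl).toBasis.ext
        intro i
        rw [OrthonormalBasis.coe_toBasis, LinearMap.zero_apply]
        have h1 := hS.apply_eigenvectorBasis rfl i
        by_contra h2
        refine hcon (hS.eigenvectorBasis rfl i) (hS.eigenvalues rfl i)
          ((hS.eigenvectorBasis rfl).norm_eq_one i) ?_ ?_
        · intro h3
          rw [h1, h3] at h2
          simp at h2
        · exact h1
      ext x
      have h1 : T (T x) = 0 := by
        have := congrArg (fun L : V →ₗ[ℝ] V => L x) hz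
        simpa using this
      have h2 := hT x (T x)
      rw [h1, inner_zero_right, neg_zero] at h2
      simpa using h2
    obtain ⟨e, μ, he, hμ, hTT⟩ := hex
    have hee : ⟪e, e⟫ = 1 := by rw [real_inner_self_eq_norm_sq, he]; norm_num
    set l := ‖T e‖ with hl
    have hl2 : μ = - l ^ 2 := by
      have h1 := hT (T e) e
      rw [hTT, inner_smul_left, hee, real_inner_self_eq_norm_sq] at h1
      simpa using h1
    have hl0 : l ≠ 0 := by
      intro h
      apply hμ
      rw [hl2, h]; ring
    set f := l⁻¹ • T e with hf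
    have hTe : T e = l • f := by
      rw [hf, smul_smul, mul_inv_cancel₀ hl0, one_smul]
    have hTf : T f = - l • e := by
      rw [hf, map_smul, hTT, smul_smul, hl2]
      congr 1
      field_simp
    have hff : ⟪f, f⟫ = 1 := by
      have h1 : ‖f‖ = 1 := by
        rw [hf, norm_smul, norm_inv, Real.norm_eq_abs, ← hl, abs_of_nonneg (norm_nonneg _)]
        exact inv_mul_cancel₀ hl0
      rw [real_inner_self_eq_norm_sq, h1]
      norm_num
    have hef : ⟪e, f⟫ = 0 := by
      have h1 := hT e e
      rw [hTe, inner_smul_left, inner_smul_right, real_inner_comm e f] at h1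
      simp only [conj_trivial] at h1
      have h2 : l * ⟪e, f⟫ = 0 := by
        rw [real_inner_comm f e] at h1 ⊢
        linarith
      rcases mul_eq_zero.1 h2 with h | h
      · exact absurd h hl0
      · exact h
    have hfe : ⟪f, e⟫ = 0 := by rw [real_inner_comm]; exact hef
    have hfR0 : f ∈ LinearMap.range T := ⟨l⁻¹ • e, by rw [map_smul]⟩
    clear_value f l
    let P : V →ₗ[ℝ] V := (innerₛₗ ℝ e).smulRight f - (innerₛₗ ℝ f).smulRight e
    have hP : ∀ x, P x = ⟪e, x⟫ • f - ⟪f, x⟫ • e := fun x => rfl
    let T' : V →ₗ[ℝ] V := T - l • P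
    have hT'a : ∀ x, T' x = T x - l • (⟪e, x⟫ • f - ⟪f, x⟫ • e) := fun x => rfl
    have hT' : ∀ x y, ⟪T' x, y⟫ = -⟪x, T' y⟫ := by
      intro x y
      simp only [hT'a, inner_sub_left, inner_sub_right, hT, inner_smul_left, inner_smul_right,
        real_inner_comm f x, real_inner_comm e x, conj_trivial]
      ring
    have he' : T' e = 0 := by
      rw [hT'a, hTe, hee, hfe]; simp
    have hf' : T' f = 0 := by
      rw [hT'a, hTf, hff, hef]; simp
    have heR : e ∈ LinearMap.range T := by
      refine ⟨-(l⁻¹ • f), ?_⟩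
      rw [map_neg, map_smul, hTf, smul_smul]
      simp [hl0]
    have hfR : f ∈ LinearMap.range T := hfR0
    have hle : LinearMap.range T' ≤ LinearMap.range T := by
      rintro _ ⟨x, rfl⟩
      rw [hT'a]
      exact Submodule.sub_mem _ ⟨x, rfl⟩ (Submodule.smul_mem _ _ (Submodule.sub_mem _
        (Submodule.smul_mem _ _ hfR) (Submodule.smul_mem _ _ heR)))
    have hoe : ∀ v ∈ LinearMap.range T', ⟪v, e⟫ = 0 := by
      rintro _ ⟨x, rfl⟩
      rw [hT', he', inner_zero_right, neg_zero]
    have hof : ∀ v ∈ LinearMap.range T', ⟪v, f⟫ = 0 := by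
      rintro _ ⟨x, rfl⟩
      rw [hT', hf', inner_zero_right, neg_zero]
    have hlt : LinearMap.range T' < LinearMap.range T := by
      refine lt_of_le_of_ne hle fun h => ?_
      rw [← h] at heR
      have := hoe e heR
      rw [hee] at this
      norm_num at this
    have hn' : finrank ℝ (LinearMap.range T') ≤ n := by
      have := Submodule.finrank_lt_finrank_of_lt hlt
      omega
    obtain ⟨ι, i1, i2, e', f', l', h1, h2, h3, h4, h5, h6⟩ := ih T' hT' hn'
    refine ⟨Option ι, inferInstance, inferInstance, fun o => o.elim e e', fun o => o.elim f f',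
      fun o => o.elim l l', ?_, ?_, ?_, ?_, ?_, ?_⟩
    · rintro (_ | i) (_ | j)
      · simp [he]
      · have := hoe _ (h4 j)
        rw [real_inner_comm] at this
        simp [this]
      · simp [hoe _ (h4 i)]
      · simp [h1]
    · rintro (_ | i) (_ | j)
      · simpa using hff
      · have := hof _ (h5 j)
        rw [real_inner_comm] at this
        simp [this]
      · simp [hof _ (h5 i)]
      · simp [h2]
    · rintro (_ | i) (_ | j)
      · exact hef
      · have := hoe _ (h5 j)
        rw [real_inner_comm] at this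
        exact this
      · exact hof _ (h4 i)
      · exact h3 i j
    · rintro (_ | i)
      · exact heR
      · exact hle (h4 i)
    · rintro (_ | i)
      · exact hfR
      · exact hle (h5 i)
    · intro x
      rw [Fintype.sum_option]
      simp only [Option.elim]
      rw [← h6 x, hT'a]
      abel

/-- Normal form of a 2-vector. -/
theorem twoVector_normal_form (w : ⋀[ℝ]^2 V) :
    ∃ (ι : Type) (_ : Fintype ι) (_ : DecidableEq ι) (e f : ι → V) (l : ι → ℝ),
      (∀ i j, ⟪e i, e j⟫ = if i = j then 1 else 0) ∧
      (∀ i j, ⟪f i, f j⟫ = if i = j then 1 else 0) ∧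
      (∀ i j, ⟪e i, f j⟫ = 0) ∧ 2 * Fintype.card ι ≤ finrank ℝ V ∧
      w = ∑ i, l i • wedge (e i) (f i) := by
  classical
  let b := stdOrthonormalBasis ℝ V
  have hb : ∀ x : V, ∑ j, ⟪x, b j⟫ • b j = x := by
    intro x
    conv_rhs => rw [← b.sum_repr x]
    refine Finset.sum_congr rfl fun j _ => ?_
    rw [b.repr_apply_apply, real_inner_comm]
  have hskew : ∃ T : V →ₗ[ℝ] V, (∀ x y, ⟪T x, y⟫ = -⟪x, T y⟫) ∧
      w = (2⁻¹ : ℝ) • ∑ j, wedge (b j) (T (b j)) := by
    have hw : w ∈ Submodule.span ℝ (Set.range (exteriorPower.ιMulti ℝ 2 (M := V))) := by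
      rw [exteriorPower.ιMulti_span]; trivial
    induction hw using Submodule.span_induction with
    | mem x h =>
      obtain ⟨v, rfl⟩ := h
      refine ⟨(innerₛₗ ℝ (v 0)).smulRight (v 1) - (innerₛₗ ℝ (v 1)).smulRight (v 0), ?_, ?_⟩
      · intro x y
        simp only [LinearMap.sub_apply, LinearMap.smulRight_apply, innerₛₗ_apply_apply]
        rw [inner_sub_left, inner_sub_right, inner_smul_left, inner_smul_left, inner_smul_right,
          inner_smul_right, real_inner_comm x (v 0), real_inner_comm x (v 1)]
        simp only [conj_trivial]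
        ring
      · have hv : exteriorPower.ιMulti ℝ 2 v = wedge (v 0) (v 1) := by
          unfold wedge
          congr 1
          ext i; fin_cases i <;> simp
        rw [hv]
        have h1 : ∀ j, wedge (b j) (((innerₛₗ ℝ (v 0)).smulRight (v 1) -
            (innerₛₗ ℝ (v 1)).smulRight (v 0)) (b j)) =
            wedge (⟪v 0, b j⟫ • b j) (v 1) - wedge (⟪v 1, b j⟫ • b j) (v 0) := by
          intro j
          simp only [LinearMap.sub_apply, LinearMap.smulRight_apply, innerₛₗ_apply_apply]
          rw [← wedgeL_apply, map_sub, map_smul, map_smul, wedgeL_apply, wedgeL_apply,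
            wedge_smul_left, wedge_smul_left]
        simp only [h1]
        rw [Finset.sum_sub_distrib]
        have h2 : ∀ x y : V, ∑ j, wedge (⟪x, b j⟫ • b j) y = wedge x y := by
          intro x y
          have h3 : wedge x y = wedgeL x y := rfl
          rw [h3]
          conv_rhs => rw [← hb x]
          rw [map_sum, LinearMap.sum_apply]
          rfl
        rw [h2, h2, wedge_swap (v 0) (v 1), sub_neg_eq_add, ← two_smul ℝ, smul_smul]
        norm_num
    | zero => exact ⟨0, by simp, by
        have : ∀ j, wedge (b j) (0 : V) = 0 := by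
          intro j
          rw [← wedgeL_apply, map_zero]
        simp [this]⟩
    | add x y _ _ hx hy =>
      obtain ⟨S, hS, rfl⟩ := hx
      obtain ⟨T, hT, rfl⟩ := hy
      refine ⟨S + T, ?_, ?_⟩
      · intro x y
        rw [LinearMap.add_apply, LinearMap.add_apply, inner_add_left, inner_add_right, hS, hT]
        ring
      · rw [← smul_add, ← Finset.sum_add_distrib]
        congr 1
        refine Finset.sum_congr rfl fun j _ => ?_
        rw [LinearMap.add_apply, wedge_add_right]
    | smul c x _ hx =>
      obtain ⟨S, hS, rfl⟩ := hx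
      refine ⟨c • S, ?_, ?_⟩
      · intro x y
        rw [LinearMap.smul_apply, LinearMap.smul_apply, inner_smul_left, inner_smul_right, hS]
        simp
      · rw [smul_comm, Finset.smul_sum]
        congr 1
        refine Finset.sum_congr rfl fun j _ => ?_
        rw [LinearMap.smul_apply, wedge_smul_right]
  obtain ⟨T, hT, hw⟩ := hskew
  obtain ⟨ι, i1, i2, e, f, l, h1, h2, h3, -, -, h6⟩ := skew_normal_form _ T hT le_rfl
  refine ⟨ι, i1, i2, e, f, l, h1, h2, h3, ?_, ?_⟩
  · have ho : Orthonormal ℝ (Sum.elim e f) := by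
      rw [orthonormal_iff_ite]
      rintro (i | i) (j | j)
      · simp [h1]
      · simp [h3]
      · rw [Sum.elim_inr, Sum.elim_inl, real_inner_comm, h3]; simp
      · simp [h2]
    have := ho.linearIndependent.fintype_card_le_finrank
    rw [Fintype.card_sum] at this
    omega
  · rw [hw]
    have h7 : ∀ j, wedge (b j) (T (b j)) = ∑ i, l i • (wedge (⟪e i, b j⟫ • b j) (f i) -
        wedge (⟪f i, b j⟫ • b j) (e i)) := by
      intro j
      rw [h6 (b j), ← wedgeL_apply, map_sum]
      refine Finset.sum_congr rfl fun i _ => ?_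
      rw [map_smul, map_sub, map_smul, map_smul, wedgeL_apply, wedgeL_apply, wedge_smul_left,
        wedge_smul_left]
    simp only [h7]
    rw [Finset.sum_comm, Finset.smul_sum]
    refine Finset.sum_congr rfl fun i _ => ?_
    rw [← Finset.smul_sum, Finset.sum_sub_distrib]
    have h2 : ∀ x y : V, ∑ j, wedge (⟪x, b j⟫ • b j) y = wedge x y := by
      intro x y
      have h3 : wedge x y = wedgeL x y := rfl
      rw [h3]
      conv_rhs => rw [← hb x]
      rw [map_sum, LinearMap.sum_apply]
      rfl
    rw [h2, h2, wedge_swap (e i) (f i), sub_neg_eq_add, ← two_smul ℝ, smul_smul, smul_smul]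
    congr 1
    ring

end NF

end Pool.Agent.H71.Pinch
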