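import Pool.Agent.H71.Pinch.NF

/-!
The curvature of a Riemannian metric, pointwise pinching and positivity of the curvature operator.
-/

set_option autoImplicit false

open scoped Manifold ContDiff Topology
open Pool.Agent.H71.Pinch (wedge)

namespace Pool.Agent.H71.PinchStmt

section Coord

variable {E : Type} [NormedAddCommGroup E] [NormedSpace ℝ E]

/-- The Koszul formula for constant vector fields `a`, `b`, `c` and the metric
`(a, b) ↦ g y a b`: the value `g(∇_a b, c)` at the point `y`. -/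
noncomputable def koszul (g : E → E → E → ℝ) (y a b c : E) : ℝ :=
  (fderiv ℝ (fun z => g z b c) y a + fderiv ℝ (fun z => g z a c) y b
    - fderiv ℝ (fun z => g z a b) y c) / 2

/-- `Γ y a b = ∇_a b` (for constant vector fields `a`, `b`) is, near the point `y`, the Levi-Civita
connection of the metric `g`, and it is differentiable at `y`. -/
def IsLeviCivitaAt (g : E → E → E → ℝ) (Γ : E → E → E → E) (y : E) : Prop :=
  (∀ a b, DifferentiableAt ℝ (fun z => Γ z a b) y) ∧
    ∀ᶠ z in 𝓝 y, ∀ a b c, g z (Γ z a b) c = koszul g z a b c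

/-- The curvature `R(a, b) c = ∇_a ∇_b c - ∇_b ∇_a c` at the point `y`, for constant vector fields
`a`, `b`, `c`; here `∇_a ∇_b c` is the derivative of `Γ y b c` in the direction `a` plus
`Γ y a (Γ y b c)`. -/
noncomputable def curv (Γ : E → E → E → E) (y a b c : E) : E :=
  fderiv ℝ (fun z => Γ z b c) y a + Γ y a (Γ y b c)
    - (fderiv ℝ (fun z => Γ z a c) y b + Γ y b (Γ y a c))

/-- The sectional curvature `K(a, b) = g(R(a, b) b, a) / (g(a, a) g(b, b) - g(a, b)²)` of the
plane spanned by `a` and `b`. -/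
noncomputable def secCurv (g : E → E → E → ℝ) (Γ : E → E → E → E) (y a b : E) : ℝ :=
  g y (curv Γ y a b b) a / (g y a a * g y b b - g y a b ^ 2)

/-- The bilinear form `Rs` on 2-vectors is the curvature operator `R^*` of `g` at `y`:
`R^*(a ∧ b, c ∧ d) = g(R(a, b) d, c)`, so that `R^*(a ∧ b, a ∧ b) = K(a, b) |a ∧ b|²`. -/
def IsCurvatureOperatorAt (g : E → E → E → ℝ) (Γ : E → E → E → E) (y : E)
    (Rs : LinearMap.BilinForm ℝ (⋀[ℝ]^2 E)) : Prop :=
  ∀ a b c d : E, Rs (wedge a b) (wedge c d) = g y (curv Γ y a b d) c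

/-- `K > 0` at the point `y`, and `K(σ) ≥ δ K(σ')` for all planes `σ`, `σ'` at the point `y`. -/
def PinchedAt (g : E → E → E → ℝ) (δ : ℝ) (y : E) : Prop :=
  ∃ Γ, IsLeviCivitaAt g Γ y ∧
    (∀ a b, LinearIndependent ℝ ![a, b] → 0 < secCurv g Γ y a b) ∧
    ∀ a b a' b', LinearIndependent ℝ ![a, b] → LinearIndependent ℝ ![a', b'] →
      δ * secCurv g Γ y a' b' ≤ secCurv g Γ y a b

/-- `R^*(w, w) > 0` for every nonzero 2-vector `w` at the point `y`. -/
def PositiveAt (g : E → E → E → ℝ) (y : E) : Prop :=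
  ∃ Γ, IsLeviCivitaAt g Γ y ∧ ∃ Rs, IsCurvatureOperatorAt g Γ y Rs ∧ ∀ w, w ≠ 0 → 0 < Rs w w

end Coord

section Mfd

variable {E : Type} [NormedAddCommGroup E] [NormedSpace ℝ E]
  {M : Type} [TopologicalSpace M] [ChartedSpace E M] [IsManifold 𝓘(ℝ, E) ∞ M]

/-- The expression, in the chart at `x`, of the Riemannian metric `g`: the value on the vectors
`a`, `b` at the point `y` of the image of the chart. -/
noncomputable def chartMetric
    (g : Bundle.ContMDiffRiemannianMetric 𝓘(ℝ, E) ∞ E (fun x : M => TangentSpace 𝓘(ℝ, E) x))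
    (x : M) (y a b : E) : ℝ :=
  g.inner ((extChartAt 𝓘(ℝ, E) x).symm y)
    (mfderiv 𝓘(ℝ, E) 𝓘(ℝ, E) (extChartAt 𝓘(ℝ, E) x).symm y a)
    (mfderiv 𝓘(ℝ, E) 𝓘(ℝ, E) (extChartAt 𝓘(ℝ, E) x).symm y b)

/-- The Riemannian manifold `(M, g)` is pointwise `δ`-pinched (at each point `x`, written in the
chart at `x`). -/
def IsPinched
    (g : Bundle.ContMDiffRiemannianMetric 𝓘(ℝ, E) ∞ E (fun x : M => TangentSpace 𝓘(ℝ, E) x))
    (δ : ℝ) : Prop :=
  ∀ x : M, PinchedAt (chartMetric g x) δ (extChartAt 𝓘(ℝ, E) x x)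

/-- The Riemannian manifold `(M, g)` has positive curvature operator (at each point `x`, written
in the chart at `x`). -/
def HasPositiveCurvatureOperator
    (g : Bundle.ContMDiffRiemannianMetric 𝓘(ℝ, E) ∞ E (fun x : M => TangentSpace 𝓘(ℝ, E) x)) :
    Prop :=
  ∀ x : M, PositiveAt (chartMetric g x) (extChartAt 𝓘(ℝ, E) x x)

end Mfd

/-- Every pointwise `δ`-pinched (connected, Hausdorff, second countable, smooth) Riemannian manifold
modelled on the vector space `E` has positive curvature operator. -/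
def PinchingForcesPositivity (E : Type) [NormedAddCommGroup E] [NormedSpace ℝ E] (δ : ℝ) : Prop :=
  ∀ (M : Type) [TopologicalSpace M] [T2Space M] [SecondCountableTopology M] [ConnectedSpace M]
    [ChartedSpace E M] [IsManifold 𝓘(ℝ, E) ∞ M]
    (g : Bundle.ContMDiffRiemannianMetric 𝓘(ℝ, E) ∞ E (fun x : M => TangentSpace 𝓘(ℝ, E) x)),
    IsPinched g δ → HasPositiveCurvatureOperator g

/-- The set of all `δ ∈ (0, 1]` such that every pointwise `δ`-pinched Riemannian `d`-manifold has
positive curvature operator. -/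
def pinchingConstants (d : ℕ) : Set ℝ :=
  {δ | 0 < δ ∧ δ ≤ 1 ∧ PinchingForcesPositivity (EuclideanSpace ℝ (Fin d)) δ}

/-- The optimal pinching constant `δ(d)`. -/
noncomputable def optimalPinching (d : ℕ) : ℝ := sInf (pinchingConstants d)

end Pool.Agent.H71.PinchStmt
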