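import Pool.Agent.H71.Pinch.Model2

set_option autoImplicit false

open scoped Manifold ContDiff Topology RealInnerProductSpace
open Module Pool.Agent.H839R2.Geo

namespace Pool.Agent.H71.Pinch

section Lin

variable {V : Type*} [AddCommGroup V] [Module ℝ V]

lemma area_pos {B : V →ₗ[ℝ] V →ₗ[ℝ] ℝ} (hs : ∀ x y, B x y = B y x)
    (hp : ∀ x, x ≠ 0 → 0 < B x x) {a b : V} (hab : LinearIndependent ℝ ![a, b]) :
    0 < area (fun x y => B x y) a b := by
  have ha : a ≠ 0 := by
    have := hab.ne_zero 0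
    simpa using this
  have h1 := hp a ha
  have h2 : B a a • b - B a b • a ≠ 0 := by
    intro h
    have h3 := LinearIndependent.pair_iff.1 hab (-B a b) (B a a) (by
      rw [← h, neg_smul]; abel)
    exact h1.ne' h3.2
  have h3 := hp _ h2
  have h4 : B (B a a • b - B a b • a) (B a a • b - B a b • a) =
      B a a * area (fun x y => B x y) a b := by
    simp only [map_sub, map_smul, LinearMap.sub_apply, LinearMap.smul_apply, smul_eq_mul, area,
      hs b a]
    ring
  rw [h4] at h3
  exact pos_of_mul_pos_right h3 h1.le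

lemma dep_cases {a b : V} (hab : ¬ LinearIndependent ℝ ![a, b]) :
    (∃ t : ℝ, b = t • a) ∨ a = 0 := by
  by_cases ha : a = 0
  · exact Or.inr ha
  · left
    by_contra h
    push Not at h
    apply hab
    rw [LinearIndependent.pair_iff]
    intro s t hst
    by_cases ht : t = 0
    · rw [ht, zero_smul, add_zero] at hst
      exact ⟨(smul_eq_zero.1 hst).resolve_right ha, ht⟩
    · exfalso
      apply h (-(t⁻¹ * s))
      have h1 : t • b = -(s • a) := eq_neg_of_add_eq_zero_right hst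
      have h2 : b = t⁻¹ • (t • b) := by rw [smul_smul, inv_mul_cancel₀ ht, one_smul]
      rw [h2, h1, smul_neg, smul_smul, neg_smul]

lemma area_dep {B : V →ₗ[ℝ] V →ₗ[ℝ] ℝ} {R : V → V → V → V → ℝ} (hR : CurvLike R)
    {a b : V} (hab : ¬ LinearIndependent ℝ ![a, b]) :
    area (fun x y => B x y) a b = 0 ∧ R a b b a = 0 := by
  rcases dep_cases hab with ⟨t, rfl⟩ | rfl
  · constructor
    · simp only [area, map_smul, LinearMap.smul_apply, smul_eq_mul]; ring
    · rw [hR.smul2, hR.self, mul_zero]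
  · constructor
    · simp [area]
    · have := hR.smul 0 0 b b 0
      rw [zero_smul, zero_mul] at this
      exact this

end Lin

variable {E : Type*} [NormedAddCommGroup E] [NormedSpace ℝ E] [FiniteDimensional ℝ E]

/-- The pointwise statement: pinching by more than `2 (m - 1) / (2 m + 1)` implies positivity of
the curvature operator. -/
theorem positive_of_pinched {g : E → E →L[ℝ] E →L[ℝ] ℝ} {y : E} (hg : ContDiffAt ℝ 2 g y)
    (hsymm : ∀ᶠ y' in 𝓝 y, ∀ a b, g y' a b = g y' b a)
    (hpos : ∀ v, v ≠ 0 → 0 < g y v v) {m : ℕ} (hm : finrank ℝ E ≤ 2 * m + 1)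
    (hd : 2 ≤ finrank ℝ E) {δ : ℝ} (hδ0 : 0 < δ) (hδ1 : δ ≤ 1)
    (hδ : 2 * ((m : ℝ) - 1) < δ * (2 * m + 1))
    (hpin : PinchedAt g δ y) : PositiveAt g y := by
  obtain ⟨Γ, hΓ, hK0, hKK⟩ := hpin
  have hR := curvLike_riem hg hsymm hpos hΓ
  obtain ⟨Rs, hRs⟩ := hR.exists_form
  refine ⟨Γ, hΓ, Rs, hRs, ?_⟩
  let B : E →ₗ[ℝ] E →ₗ[ℝ] ℝ := LinearMap.mk₂ ℝ (fun a b => g y a b)
    (fun a a' b => by rw [map_add]; rfl) (fun c a b => by rw [map_smul]; rfl)
    (fun a b b' => map_add _ _ _) (fun c a b => map_smul _ _ _)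
  have hB : ∀ a b, B a b = g y a b := fun a b => rfl
  have hs : ∀ a b, B a b = B b a := fun a b => hsymm.self_of_nhds a b
  have hp : ∀ a, a ≠ 0 → 0 < B a a := fun a ha => hpos a ha
  -- a pair of independent vectors
  obtain ⟨v, hv⟩ : ∃ v : Fin 2 → E, LinearIndependent ℝ v := by
    have h1 : (2 : ℕ) ≤ finrank ℝ E := hd
    let b := Module.finBasis ℝ E
    refine ⟨fun i => b (Fin.castLE h1 i), ?_⟩
    exact b.linearIndependent.comp _ (Fin.castLE_injective h1)
  have hv' : LinearIndependent ℝ ![v 0, v 1] := by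
    have : ![v 0, v 1] = v := by ext i; fin_cases i <;> rfl
    rw [this]; exact hv
  let S : Set ℝ := {c | ∃ a b, LinearIndependent ℝ ![a, b] ∧ c = secCurv g Γ y a b}
  have hSne : S.Nonempty := ⟨_, v 0, v 1, hv', rfl⟩
  have hSb : BddAbove S := by
    refine ⟨secCurv g Γ y (v 0) (v 1) / δ, ?_⟩
    rintro _ ⟨a, b, hab, rfl⟩
    rw [le_div_iff₀ hδ0, mul_comm]
    exact hKK _ _ _ _ hv' hab
  set K := sSup S with hKdef
  have hKpos : 0 < K := (hK0 _ _ hv').trans_le (le_csSup hSb ⟨_, _, hv', rfl⟩)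
  have hup : ∀ a b, LinearIndependent ℝ ![a, b] → secCurv g Γ y a b ≤ K := fun a b hab =>
    le_csSup hSb ⟨a, b, hab, rfl⟩
  have hlo : ∀ a b, LinearIndependent ℝ ![a, b] → δ * K ≤ secCurv g Γ y a b := by
    intro a b hab
    have h1 : K ≤ secCurv g Γ y a b / δ := by
      apply csSup_le hSne
      rintro _ ⟨a', b', hab', rfl⟩
      rw [le_div_iff₀ hδ0, mul_comm]
      exact hKK _ _ _ _ hab hab'
    rw [le_div_iff₀ hδ0] at h1
    linarith
  have hval : ∀ a b, LinearIndependent ℝ ![a, b] → riem g Γ y a b b a =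
      secCurv g Γ y a b * area (fun x y => B x y) a b := by
    intro a b hab
    have h1 := area_pos hs hp hab
    have h2 : secCurv g Γ y a b = riem g Γ y a b b a / area (fun x y => B x y) a b := rfl
    rw [h2, div_mul_cancel₀ _ h1.ne']
  intro w hw
  refine hR.pos (B := B) (k := δ * K) (K := K) (m := m) hs hp hm ?_ ?_ ?_ ?_ Rs hRs w hw
  · nlinarith
  · have h1 : δ * K - 2 / 3 * (K - δ * K) * ((m : ℝ) - 1) =
        K / 3 * (δ * (2 * m + 1) - 2 * ((m : ℝ) - 1)) := by ring
    rw [h1]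
    apply mul_pos (by linarith) (by linarith)
  · intro a b
    by_cases hab : LinearIndependent ℝ ![a, b]
    · rw [hval a b hab]
      exact mul_le_mul_of_nonneg_right (hlo a b hab) (area_pos hs hp hab).le
    · rw [(area_dep (B := B) hR hab).1, (area_dep (B := B) hR hab).2, mul_zero]
  · intro a b
    by_cases hab : LinearIndependent ℝ ![a, b]
    · rw [hval a b hab]
      exact mul_le_mul_of_nonneg_right (hup a b hab) (area_pos hs hp hab).le
    · rw [(area_dep (B := B) hR hab).1, (area_dep (B := B) hR hab).2, mul_zero]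

end Pool.Agent.H71.Pinch
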